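import Pool.Agent.UBQ.Defs
import Pool.Agent.UBC.SeqList

/-!
# Definitions for quadratic periodic points of compositions
-/

set_option autoImplicit false

namespace UBQS

open Height NumberField IsDedekindDomain Polynomial UBC

/-- in the field extension `E` of `K`: `x` and `y` are distinct periodic points of the composition of
the maps `z ↦ H(z ^ r) + c`, `H` in the list `l`, with sum `s` and product `p` -/
def PairIn {K : Type*} (E : Type*) [Field K] [Field E] [Algebra K E] (r : ℕ) (l : List K[X])
    (c s p : K) (x y : E) : Prop :=
  x ≠ y ∧ PerPt (compF r (algebraMap K E c) (l.map (Polynomial.map (algebraMap K E)))) x ∧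
    PerPt (compF r (algebraMap K E c) (l.map (Polynomial.map (algebraMap K E)))) y ∧
    x + y = algebraMap K E s ∧ x * y = algebraMap K E p

/-- `s` and `p` are the sum and the product of two distinct periodic points of the composition -/
def QPair {K : Type*} [Field K] (r : ℕ) (l : List K[X]) (c s p : K) : Prop :=
  ∃ x y : AlgebraicClosure K, PairIn (AlgebraicClosure K) r l c s p x y

/-- the places where `r * m` is not a unit or some polynomial in `T` is not integral or has a
leading coefficient which is not a unit -/
def badPl {K : Type*} [Field K] [NumberField K] (r m : ℕ) (T : Finset K[X]) :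
    Set (HeightOneSpectrum (𝓞 K)) :=
  {v | v.valuation K ((r * m : ℕ) : K) ≠ 1 ∨ ∃ H ∈ T, (∃ i, 1 < v.valuation K (H.coeff i)) ∨
    v.valuation K H.leadingCoeff ≠ 1}

/-- a nonempty list of elements of `T` -/
def InT {K : Type*} [Field K] (T : Finset K[X]) (l : List K[X]) : Prop :=
  l ≠ [] ∧ ∀ H ∈ l, H ∈ T

end UBQS
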