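import Pool.Agent.UBQS.FinalA
import Pool.Agent.UBQS.FinalB

/-!
# Uniform bound for periodic points of degree at most two of compositions
-/

set_option autoImplicit false

universe u

namespace UBQS

open Height NumberField IsDedekindDomain Polynomial UBC

theorem quadratic_all (K : Type u) [Field K] [NumberField K] {r m : ℕ} (hr : 6 ≤ r) (hm : 1 ≤ m)
    (T : Finset K[X]) (hT : ∀ H ∈ T, H.natDegree = m) :
    ∃ B : ℕ, ∀ (c : K) (l : List K[X]), InT T l → ∀ P : Finset (AlgebraicClosure K),
      (∀ x ∈ P, (minpoly K x).natDegree ≤ 2 ∧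
        PerPt (compF r (algebraMap K (AlgebraicClosure K) c)
          (l.map (Polynomial.map (algebraMap K (AlgebraicClosure K))))) x) → P.card ≤ B := by
  obtain ⟨B, hB⟩ := pairs_all K hr hm T hT
  exact ⟨(B + 1) + 2 * B, fun c l hl P hP => card_le_of_pairs K l c B (hB c l hl) P hP⟩

end UBQS
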