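import Pool.Agent.UBQS.Pairs

/-!
# A bounded number of pairs, field without roots of unity
-/

set_option autoImplicit false

universe u

namespace UBQS

open Height NumberField IsDedekindDomain Polynomial UBC UBQ

/-- R12.  Pass to a number field `L` containing the `r`-th roots of unity (`UBC.exists_cyclotomic` in
UBC/FinalPer.lean), apply `pairs_root` to `L` and `T.image (Polynomial.map (algebraMap K L))`, and
`QPair.map`. -/
theorem pairs_all (K : Type u) [Field K] [NumberField K] {r m : ℕ} (hr : 6 ≤ r) (hm : 1 ≤ m)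
    (T : Finset K[X]) (hT : ∀ H ∈ T, H.natDegree = m) :
    ∃ B : ℕ, ∀ (c : K) (l : List K[X]), InT T l → ∀ P : Finset (K × K),
      (∀ q ∈ P, QPair r l c q.1 q.2) → P.card ≤ B := by
  classical
  obtain ⟨L, i1, i2, i3, ζ0, hζ0⟩ := exists_cyclotomic K r (by omega)
  have hT' : ∀ H ∈ T.image (Polynomial.map (algebraMap K L)), H.natDegree = m := by
    intro H' hH'
    obtain ⟨H, hH, rfl⟩ := Finset.mem_image.1 hH'
    rw [natDegree_map, hT H hH]
  obtain ⟨B, hB⟩ := pairs_root L hr hm hζ0 _ hT'
  refine ⟨B, fun c l hl P hP => ?_⟩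
  have hinj : Function.Injective (algebraMap K L) := (algebraMap K L).injective
  have h1 := hB (algebraMap K L c) _ (TauAux.inT_map hl)
    (P.image fun q : K × K => (algebraMap K L q.1, algebraMap K L q.2)) (by
    intro w hw
    obtain ⟨q, hq, rfl⟩ := Finset.mem_image.1 hw
    exact (hP q hq).map)
  rwa [Finset.card_image_of_injective _ (fun q q' hqq => by
    rw [Prod.mk.injEq] at hqq
    exact Prod.ext (hinj hqq.1) (hinj hqq.2))] at h1

end UBQS
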