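import Pool.Agent.UBQS.Defs
import Pool.Agent.UBQ.LocHt1

/-!
# Local size estimates for periodic orbits of sequences of maps
-/

set_option autoImplicit false

namespace UBQS

open Polynomial UBC

namespace LocHt1Aux

/-- a point of maximal size in a periodic sequence -/
lemma max_seq {M : Type*} [Field M] (w : AbsoluteValue M ℝ) {a : ℕ → M} {L : ℕ} (hL : 0 < L)
    (haL : ∀ i, a (i + L) = a i) : ∃ i0, ∀ i, w (a i) ≤ w (a i0) := by
  obtain ⟨i0, _, hmax⟩ := Finset.exists_max_image (Finset.range L) (fun i => w (a i))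
    ⟨0, Finset.mem_range.2 hL⟩
  refine ⟨i0, fun i => ?_⟩
  have hp : Function.Periodic a L := haL
  have h1 : a (i % L) = a i := hp.map_mod_nat i
  rw [← h1]
  exact hmax (i % L) (Finset.mem_range.2 (Nat.mod_lt i hL))

/-- the leading power -/
lemma pow_eq' {M : Type*} [Field M] {r m : ℕ} {H : M[X]} (hH : H.leadingCoeff ≠ 0)
    (hdeg : H.natDegree = m) (c z : M) :
    z ^ (r * m) = H.leadingCoeff⁻¹ *
      ((fam r H c z - c) - ∑ i ∈ Finset.range m, H.coeff i * (z ^ r) ^ i) := by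
  have h1 : fam r H c z - c = H.leadingCoeff * z ^ (r * m) +
      ∑ i ∈ Finset.range m, H.coeff i * (z ^ r) ^ i := by
    unfold fam
    rw [Polynomial.eval_eq_sum_range, hdeg, Finset.sum_range_succ, pow_mul,
      Polynomial.leadingCoeff, hdeg]
    ring
  rw [h1, add_sub_cancel_right, ← mul_assoc, inv_mul_cancel₀ hH, one_mul]

/-- the leading coefficient does not vanish -/
lemma lead_ne {M : Type*} [Field M] {m : ℕ} (hm : 1 ≤ m) {H : M[X]}
    (hdeg : H.natDegree = m) : H.leadingCoeff ≠ 0 := by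
  intro h
  rw [Polynomial.leadingCoeff_eq_zero] at h
  rw [h, Polynomial.natDegree_zero] at hdeg
  omega

end LocHt1Aux

open LocHt1Aux

/-- R5a. nonarchimedean: size of periodic orbits (adapt UBQ/LocHt1.lean).
Let `R` be the maximal absolute value in the (finite) orbit, attained at `z = a i`, `D = r m`,
`ℓ` the leading coefficient of `H i`.  If `R ≥ 1` then `ℓ z ^ D = a (i + 1) - c - ∑ k < m, ..` gives
`R ^ D ≤ A max (w c) (A R ^ (D - 1))`, so `R ≤ max (A ^ 2) (A w c)`. -/
theorem per_nonarch {M : Type*} [Field M] (w : AbsoluteValue M ℝ) (hw : IsNonarchimedean w)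
    {r m : ℕ} (hr : 2 ≤ r) (hm : 1 ≤ m) {H : ℕ → M[X]} (hdeg : ∀ i, (H i).natDegree = m)
    {A : ℝ} (hA : 1 ≤ A) (hcoef : ∀ i j, w ((H i).coeff j) ≤ A)
    (hlead : ∀ i, w (H i).leadingCoeff⁻¹ ≤ A) {c : M} {a : ℕ → M}
    (ha : ∀ i, a (i + 1) = fam r (H i) c (a i)) {L : ℕ} (hL : 0 < L)
    (haL : ∀ i, a (i + L) = a i) (i : ℕ) : max (w (a i)) 1 ≤ A ^ 2 * max (w c) 1 := by
  obtain ⟨k, hk⟩ := max_seq w hL haL
  have hxz := hk i
  have hgz : w (fam r (H k) c (a k)) ≤ w (a k) := by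
    rw [← ha k]
    exact hk (k + 1)
  generalize hz : a k = z at hxz hgz
  have hmax : 1 ≤ max (w c) 1 := le_max_right _ _
  have hA0 : 0 ≤ A := by linarith
  have hAA : A ≤ A ^ 2 := le_self_pow₀ hA (by norm_num)
  have hA1 : A ^ 2 ≤ A ^ 2 * max (w c) 1 := le_mul_of_one_le_right (by positivity) hmax
  have hc1 : A * w c ≤ A ^ 2 * max (w c) 1 :=
    mul_le_mul hAA (le_max_left (w c) 1) (w.nonneg c) (by positivity)
  refine max_le ?_ ((hA.trans hAA).trans hA1)
  by_cases hz1 : 1 ≤ w z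
  · refine hxz.trans ?_
    have hD : 2 ≤ r * m := by nlinarith
    have hD1 : r * m = (r * m - 1) + 1 := by omega
    have h1 : w z ≤ w z ^ (r * m - 1) := le_self_pow₀ hz1 (by omega)
    have h2 : w z ^ (r * m) ≤ A * max (max (w z) (w c)) (A * w z ^ (r * m - 1)) := by
      rw [← map_pow, pow_eq' (lead_ne hm (hdeg k)) (hdeg k) c z, map_mul]
      refine mul_le_mul (hlead k) ?_ (w.nonneg _) hA0
      refine (UBQ.LocHt1Aux.nonarch_sub w hw _ _).trans (max_le_max ?_ ?_)
      · exact (UBQ.LocHt1Aux.nonarch_sub w hw _ _).trans (max_le_max hgz le_rfl)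
      · refine UBQ.LocHt1Aux.nonarch_sum w hw _ _ ?_ fun j hj =>
          UBQ.LocHt1Aux.term_le w hr hA (hcoef k) hz1 (Finset.mem_range.1 hj)
        exact mul_nonneg (by linarith) (pow_nonneg (w.nonneg z) _)
    have hpos : 0 < w z ^ (r * m - 1) := pow_pos (by linarith) _
    have h3 : w z ≤ A * w z ^ (r * m - 1) := h1.trans (le_mul_of_one_le_left hpos.le hA)
    rcases le_total (w c) (A * w z ^ (r * m - 1)) with h4 | h4
    · have h5 : w z ^ (r * m) ≤ A ^ 2 * w z ^ (r * m - 1) := by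
        refine h2.trans ?_
        rw [sq, mul_assoc]
        exact mul_le_mul_of_nonneg_left (max_le (max_le h3 h4) le_rfl) hA0
      rw [hD1, pow_succ, Nat.add_sub_cancel, mul_comm (w z ^ (r * m - 1)) (w z)] at h5
      exact (le_of_mul_le_mul_right h5 hpos).trans hA1
    · have h5 : w z ^ (r * m) ≤ A * w c :=
        h2.trans (mul_le_mul_of_nonneg_left (max_le (max_le (h3.trans h4) le_rfl) h4) hA0)
      have h6 : w z ≤ w z ^ (r * m) := le_self_pow₀ hz1 (by omega)
      exact (h6.trans h5).trans hc1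
  · exact (hxz.trans (not_le.1 hz1).le).trans ((hA.trans hAA).trans hA1)

/-- R5b. any absolute value: size of periodic orbits.
Now `R ^ D ≤ A (w c + (m A + 1) R ^ (D - 1))`, so `R ≤ 2 A (m A + 1)` or `R ^ D ≤ 2 A w c`. -/
theorem per_any {M : Type*} [Field M] (w : AbsoluteValue M ℝ)
    {r m : ℕ} (hr : 2 ≤ r) (hm : 1 ≤ m) {H : ℕ → M[X]} (hdeg : ∀ i, (H i).natDegree = m)
    {A : ℝ} (hA : 1 ≤ A) (hcoef : ∀ i j, w ((H i).coeff j) ≤ A)
    (hlead : ∀ i, w (H i).leadingCoeff⁻¹ ≤ A) {c : M} {a : ℕ → M}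
    (ha : ∀ i, a (i + 1) = fam r (H i) c (a i)) {L : ℕ} (hL : 0 < L)
    (haL : ∀ i, a (i + L) = a i) (i : ℕ) :
    max (w (a i)) 1 ≤ (2 * A * (m * A + 1)) * max (w c) 1 := by
  obtain ⟨k, hk⟩ := max_seq w hL haL
  have hxz := hk i
  have hgz : w (fam r (H k) c (a k)) ≤ w (a k) := by
    rw [← ha k]
    exact hk (k + 1)
  generalize hz : a k = z at hxz hgz
  have hmax : 1 ≤ max (w c) 1 := le_max_right _ _
  have hA0 : 0 ≤ A := by linarith
  have hmA : 1 ≤ (m : ℝ) * A + 1 := by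
    have : 0 ≤ (m : ℝ) * A := mul_nonneg (Nat.cast_nonneg m) hA0
    linarith
  have hB : 2 ≤ 2 * A * ((m : ℝ) * A + 1) := by
    have h1 : 1 ≤ A * ((m : ℝ) * A + 1) := one_le_mul_of_one_le_of_one_le hA hmA
    linarith
  have hB2 : 2 * A ≤ 2 * A * ((m : ℝ) * A + 1) := le_mul_of_one_le_right (by linarith) hmA
  have hA1 : 2 * A * ((m : ℝ) * A + 1) ≤ 2 * A * (m * A + 1) * max (w c) 1 :=
    le_mul_of_one_le_right (by linarith) hmax
  have hc1 : 2 * A * w c ≤ 2 * A * (m * A + 1) * max (w c) 1 :=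
    mul_le_mul hB2 (le_max_left (w c) 1) (w.nonneg c) (by linarith)
  refine max_le ?_ (by linarith)
  by_cases hz1 : 1 ≤ w z
  · refine hxz.trans ?_
    have hD : 2 ≤ r * m := by nlinarith
    have hD1 : r * m = (r * m - 1) + 1 := by omega
    have h1 : w z ≤ w z ^ (r * m - 1) := le_self_pow₀ hz1 (by omega)
    have h2 : w z ^ (r * m) ≤ A * ((w z + w c) + m * (A * w z ^ (r * m - 1))) := by
      rw [← map_pow, pow_eq' (lead_ne hm (hdeg k)) (hdeg k) c z, map_mul]
      refine mul_le_mul (hlead k) ?_ (w.nonneg _) hA0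
      refine (w.sub_le_add _ _).trans (add_le_add ?_ ?_)
      · exact (w.sub_le_add _ _).trans (add_le_add hgz le_rfl)
      · refine (w.sum_le _ _).trans ?_
        have h3 : ∑ j ∈ Finset.range m, w ((H k).coeff j * (z ^ r) ^ j) ≤
            ∑ _j ∈ Finset.range m, A * w z ^ (r * m - 1) :=
          Finset.sum_le_sum fun j hj => UBQ.LocHt1Aux.term_le w hr hA (hcoef k) hz1
            (Finset.mem_range.1 hj)
        rw [Finset.sum_const, Finset.card_range, nsmul_eq_mul] at h3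
        exact h3
    have hpos : 0 < w z ^ (r * m - 1) := pow_pos (by linarith) _
    have h4 : w z ^ (r * m) ≤ A * (w c + (m * A + 1) * w z ^ (r * m - 1)) := by
      refine h2.trans (mul_le_mul_of_nonneg_left ?_ hA0)
      linarith
    rcases le_total (w c) ((m * A + 1) * w z ^ (r * m - 1)) with h5 | h5
    · have h6 : w z ^ (r * m) ≤ 2 * A * (m * A + 1) * w z ^ (r * m - 1) := by
        have h8 : A * (w c + (m * A + 1) * w z ^ (r * m - 1)) ≤
            A * ((m * A + 1) * w z ^ (r * m - 1) + (m * A + 1) * w z ^ (r * m - 1)) :=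
          mul_le_mul_of_nonneg_left (by linarith) hA0
        refine (h4.trans h8).trans (le_of_eq ?_)
        ring
      rw [hD1, pow_succ, Nat.add_sub_cancel, mul_comm (w z ^ (r * m - 1)) (w z)] at h6
      exact (le_of_mul_le_mul_right h6 hpos).trans hA1
    · have h6 : w z ^ (r * m) ≤ 2 * A * w c := by
        have h8 : A * (w c + (m * A + 1) * w z ^ (r * m - 1)) ≤ A * (w c + w c) :=
          mul_le_mul_of_nonneg_left (by linarith) hA0
        refine (h4.trans h8).trans (le_of_eq ?_)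
        ring
      have h7 : w z ≤ w z ^ (r * m) := le_self_pow₀ hz1 (by omega)
      exact (h7.trans h6).trans hc1
  · have := not_le.1 hz1
    linarith

end UBQS
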