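import Pool.Agent.UBQS.Defs

/-!
# Pairs of periodic points of compositions in extensions
-/

set_option autoImplicit false

universe u

namespace UBQS

open NumberField Polynomial UBC

/-- R1a. transport of compositions (this is `UBC.compF_map` of UBC/FinalSeq.lean) -/
theorem compF_map' {K L : Type*} [Field K] [Field L] (φ : K →+* L) (r : ℕ) (c : K)
    (l : List K[X]) (z : K) :
    φ (compF r c l z) = compF r (φ c) (l.map (Polynomial.map φ)) (φ z) := by
  unfold compF
  induction l generalizing z with
  | nil => rfl
  | cons H l ih =>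
    rw [List.foldl_cons, ih, List.map_cons, List.foldl_cons]
    congr 1
    rw [map_add, ← map_pow, eval_map, eval₂_hom]

namespace PairAux

theorem iter_map {E E' : Type*} [Field E] [Field E'] (φ : E →+* E') (r : ℕ) (l : List E[X])
    (c x : E) (n : ℕ) :
    (compF r (φ c) (l.map (Polynomial.map φ)))^[n] (φ x) = φ ((compF r c l)^[n] x) := by
  induction n with
  | zero => rfl
  | succ n ih =>
    rw [Function.iterate_succ_apply', Function.iterate_succ_apply', ih, compF_map']

theorem perPt_map_iff {E E' : Type*} [Field E] [Field E'] (φ : E →+* E') (r : ℕ) (l : List E[X])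
    (c x : E) : PerPt (compF r (φ c) (l.map (Polynomial.map φ))) (φ x) ↔
      PerPt (compF r c l) x := by
  constructor
  · rintro ⟨k, hk, h⟩
    refine ⟨k, hk, φ.injective ?_⟩
    rw [← iter_map, h]
  · rintro ⟨k, hk, h⟩
    refine ⟨k, hk, ?_⟩
    rw [iter_map, h]

/-- pairs are transported by field homomorphisms over `K`, in both directions -/
theorem pairIn_map_iff {K E E' : Type*} [Field K] [Field E] [Field E'] [Algebra K E]
    [Algebra K E'] (φ : E →ₐ[K] E') (r : ℕ) (l : List K[X]) (c s p : K) (x y : E) :
    PairIn E' r l c s p (φ x) (φ y) ↔ PairIn E r l c s p x y := by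
  have hH : (l.map (Polynomial.map (algebraMap K E))).map (Polynomial.map (φ : E →+* E')) =
      l.map (Polynomial.map (algebraMap K E')) := by
    rw [List.map_map]
    apply List.map_congr_left
    intro H _
    rw [Function.comp_apply, Polynomial.map_map]
    congr 1
    ext a
    simp
  have hc : ∀ a : K, algebraMap K E' a = (φ : E →+* E') (algebraMap K E a) := fun a => by
    simp
  unfold PairIn
  have h1 : ∀ z : E, PerPt (compF r (algebraMap K E' c)
      (l.map (Polynomial.map (algebraMap K E')))) (φ z) ↔
      PerPt (compF r (algebraMap K E c) (l.map (Polynomial.map (algebraMap K E)))) z :=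
      fun z => by
    rw [← hH, hc]
    exact perPt_map_iff (φ : E →+* E') r _ _ z
  rw [h1, h1]
  have h2 : φ x + φ y = algebraMap K E' s ↔ x + y = algebraMap K E s := by
    rw [hc, ← map_add]
    exact (φ : E →+* E').injective.eq_iff
  have h3 : φ x * φ y = algebraMap K E' p ↔ x * y = algebraMap K E p := by
    rw [hc, ← map_mul]
    exact (φ : E →+* E').injective.eq_iff
  rw [h2, h3]
  have h4 : φ x ≠ φ y ↔ x ≠ y :=
    not_congr ((φ : E →+* E').injective.eq_iff (a := x) (b := y))
  rw [h4]

end PairAux

open PairAux

/-- R1b. a pair over `K` is a pair over an extension `L` (adapt UBQ/Pair.lean) -/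
theorem QPair.map {K L : Type*} [Field K] [Field L] [Algebra K L] {r : ℕ} {l : List K[X]}
    {c s p : K} (h : QPair r l c s p) :
    QPair r (l.map (Polynomial.map (algebraMap K L))) (algebraMap K L c) (algebraMap K L s)
      (algebraMap K L p) := by
  obtain ⟨x, y, hxy⟩ := h
  let φ : AlgebraicClosure K →ₐ[K] AlgebraicClosure L := IsAlgClosed.lift
  refine ⟨φ x, φ y, ?_⟩
  have h1 := (pairIn_map_iff φ r l c s p x y).2 hxy
  unfold PairIn at h1 ⊢
  have hH : (l.map (Polynomial.map (algebraMap K L))).map
      (Polynomial.map (algebraMap L (AlgebraicClosure L))) =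
      l.map (Polynomial.map (algebraMap K (AlgebraicClosure L))) := by
    rw [List.map_map]
    apply List.map_congr_left
    intro H _
    rw [Function.comp_apply, Polynomial.map_map, ← IsScalarTower.algebraMap_eq]
  rw [hH, ← IsScalarTower.algebraMap_apply, ← IsScalarTower.algebraMap_apply,
    ← IsScalarTower.algebraMap_apply]
  exact h1

/-- R1c. two pairs live in a common number field (adapt UBQ/Pair.lean) -/
theorem QPair.field₂ {K : Type u} [Field K] [NumberField K] {r : ℕ} {l : List K[X]}
    {c s p s' p' : K} (h : QPair r l c s p) (h' : QPair r l c s' p') :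
    ∃ (M : Type u) (_ : Field M) (_ : NumberField M) (_ : Algebra K M) (x y x' y' : M),
      PairIn M r l c s p x y ∧ PairIn M r l c s' p' x' y' := by
  obtain ⟨x, y, hxy⟩ := h
  obtain ⟨x', y', hxy'⟩ := h'
  let S : Set (AlgebraicClosure K) := {x, y, x', y'}
  let M : IntermediateField K (AlgebraicClosure K) := IntermediateField.adjoin K S
  have hS : S.Finite := by simp [S]
  have : FiniteDimensional K M := by
    refine IntermediateField.finiteDimensional_adjoin (S := S) ?_
    intro z _
    exact (Algebra.IsAlgebraic.isAlgebraic (R := K) z).isIntegral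
  have : CharZero M := algebraRat.charZero M
  have : FiniteDimensional ℚ M := FiniteDimensional.trans ℚ K M
  have : NumberField M := ⟨⟩
  have hx : x ∈ M := IntermediateField.subset_adjoin K S (by simp [S])
  have hy : y ∈ M := IntermediateField.subset_adjoin K S (by simp [S])
  have hx' : x' ∈ M := IntermediateField.subset_adjoin K S (by simp [S])
  have hy' : y' ∈ M := IntermediateField.subset_adjoin K S (by simp [S])
  refine ⟨M, inferInstance, inferInstance, inferInstance, ⟨x, hx⟩, ⟨y, hy⟩, ⟨x', hx'⟩, ⟨y', hy'⟩,
    ?_, ?_⟩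
  · exact (pairIn_map_iff M.val r l c s p ⟨x, hx⟩ ⟨y, hy⟩).1 hxy
  · exact (pairIn_map_iff M.val r l c s' p' ⟨x', hx'⟩ ⟨y', hy'⟩).1 hxy'

/-- R1d. one pair in a number field -/
theorem QPair.field {K : Type u} [Field K] [NumberField K] {r : ℕ} {l : List K[X]}
    {c s p : K} (h : QPair r l c s p) :
    ∃ (M : Type u) (_ : Field M) (_ : NumberField M) (_ : Algebra K M) (x y : M),
      PairIn M r l c s p x y := by
  obtain ⟨M, i1, i2, i3, x, y, x', y', h1, h2⟩ := h.field₂ h
  exact ⟨M, i1, i2, i3, x, y, h1⟩

end UBQS
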