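import Pool.Agent.UBQ.ValExt
import Pool.Agent.UBQ.Ht1
import Pool.Agent.UBQS.Pair
import Pool.Agent.UBQS.LocHt1
import Pool.Agent.UBC.LocGlob

/-!
# Heights of pairs, upper bound
-/

set_option autoImplicit false

universe u

namespace UBQS

open Height NumberField Polynomial UBC UBQ

namespace Ht1Aux

open AdmissibleAbsValues

/-- product of the sizes of the coefficients and of the inverses of the leading coefficients -/
noncomputable def cT {L : Type*} [Field L] (m : ℕ) (T : Finset L[X]) (v : AbsoluteValue L ℝ) : ℝ :=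
  ∏ H ∈ T, (UBQ.Ht1Aux.cA m H v * max (v (H.leadingCoeff)⁻¹) 1)

theorem one_le_fac {L : Type*} [Field L] (m : ℕ) (H : L[X]) (v : AbsoluteValue L ℝ) :
    1 ≤ UBQ.Ht1Aux.cA m H v * max (v (H.leadingCoeff)⁻¹) 1 :=
  one_le_mul_of_one_le_of_one_le (UBQ.Ht1Aux.one_le_cA m H v) (le_max_right _ _)

theorem one_le_cT {L : Type*} [Field L] (m : ℕ) (T : Finset L[X]) (v : AbsoluteValue L ℝ) :
    1 ≤ cT m T v :=
  UBQ.Ht1Aux.prod_one_le _ _ (fun H => one_le_fac m H v)

theorem fac_le_cT {L : Type*} [Field L] (m : ℕ) {T : Finset L[X]} (v : AbsoluteValue L ℝ)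
    {H : L[X]} (hH : H ∈ T) :
    UBQ.Ht1Aux.cA m H v * max (v (H.leadingCoeff)⁻¹) 1 ≤ cT m T v := by
  classical
  rw [cT, ← Finset.mul_prod_erase _ _ hH]
  exact le_mul_of_one_le_right (le_trans zero_le_one (one_le_fac m H v))
    (UBQ.Ht1Aux.prod_one_le _ _ (fun H => one_le_fac m H v))

theorem coeff_le_cT {L : Type*} [Field L] {m : ℕ} {T : Finset L[X]} (v : AbsoluteValue L ℝ)
    {H : L[X]} (hH : H ∈ T) (hdeg : H.natDegree = m) (i : ℕ) : v (H.coeff i) ≤ cT m T v := by
  refine le_trans (UBQ.Ht1Aux.coeff_le_cA hdeg v i) (le_trans ?_ (fac_le_cT m v hH))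
  exact le_mul_of_one_le_right (le_trans zero_le_one (UBQ.Ht1Aux.one_le_cA m H v))
    (le_max_right _ _)

theorem lead_le_cT {L : Type*} [Field L] (m : ℕ) {T : Finset L[X]} (v : AbsoluteValue L ℝ)
    {H : L[X]} (hH : H ∈ T) : v (H.leadingCoeff)⁻¹ ≤ cT m T v := by
  refine le_trans (le_max_left _ 1) (le_trans ?_ (fac_le_cT m v hH))
  exact le_mul_of_one_le_left (le_trans zero_le_one (le_max_right _ _))
    (UBQ.Ht1Aux.one_le_cA m H v)

theorem fin_cT {L : Type*} [Field L] [AdmissibleAbsValues L] (m : ℕ) (T : Finset L[X]) :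
    {v : AbsoluteValue L ℝ | v ∈ nonarchAbsVal (K := L) ∧ cT m T v ≠ 1}.Finite := by
  classical
  have h1 : ∀ H : L[X], {v : AbsoluteValue L ℝ | v ∈ nonarchAbsVal (K := L) ∧
      max (v (H.leadingCoeff)⁻¹) 1 ≠ 1}.Finite := by
    intro H
    have h := LocGlobAux.fms_max (L := L) (H.leadingCoeff)⁻¹
    refine (Set.Finite.image Subtype.val h).subset ?_
    rintro v ⟨hv, hv2⟩
    exact ⟨⟨v, hv⟩, hv2, rfl⟩
  refine (Set.Finite.biUnion (Finset.finite_toSet T)
    (fun H _ => (UBQ.Ht1Aux.fin_cA m H).union (h1 H))).subset ?_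
  rintro v ⟨hv, hv2⟩
  by_contra hcon
  apply hv2
  rw [cT]
  refine Finset.prod_eq_one (fun H hH => ?_)
  have h2 : UBQ.Ht1Aux.cA m H v = 1 := by
    by_contra hne
    apply hcon
    simp only [Set.mem_iUnion]
    exact ⟨H, hH, Or.inl ⟨hv, hne⟩⟩
  have h3 : max (v (H.leadingCoeff)⁻¹) 1 = 1 := by
    by_contra hne
    apply hcon
    simp only [Set.mem_iUnion]
    exact ⟨H, hH, Or.inr ⟨hv, hne⟩⟩
  rw [h2, h3, mul_one]

section Orbit

variable {L : Type*} [Field L] {M : Type*} [Field M] [Algebra L M]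

open SeqListAux

/-- the data of the orbit of a periodic point of a composition -/
theorem orbit_data {r m : ℕ} {T : Finset L[X]} (hT : ∀ H ∈ T, H.natDegree = m)
    {v : AbsoluteValue L ℝ} {w : AbsoluteValue M ℝ} (hwv : ∀ z : L, w (algebraMap L M z) = v z)
    {l : List L[X]} (hl : InT T l) {c : M} {x : M}
    (hx : PerPt (compF r c (l.map (Polynomial.map (algebraMap L M)))) x) :
    (∀ i, (Hs (l.map (Polynomial.map (algebraMap L M))) i).natDegree = m) ∧
    (∀ i j, w ((Hs (l.map (Polynomial.map (algebraMap L M))) i).coeff j) ≤ cT m T v) ∧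
    (∀ i, w ((Hs (l.map (Polynomial.map (algebraMap L M))) i).leadingCoeff)⁻¹ ≤ cT m T v) ∧
    ∃ k : ℕ, 0 < k ∧ ∀ i, sq r c (l.map (Polynomial.map (algebraMap L M))) x (i + k) =
      sq r c (l.map (Polynomial.map (algebraMap L M))) x i := by
  have hne : l.map (Polynomial.map (algebraMap L M)) ≠ [] := by
    intro h
    exact hl.1 (List.map_eq_nil_iff.1 h)
  have hmem : ∀ i, ∃ H ∈ T, Hs (l.map (Polynomial.map (algebraMap L M))) i =
      H.map (algebraMap L M) := by
    intro i
    obtain ⟨H, hH, hHe⟩ := List.mem_map.1 (Hs_mem hne i)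
    exact ⟨H, hl.2 H hH, hHe.symm⟩
  refine ⟨fun i => ?_, fun i j => ?_, fun i => ?_, ?_⟩
  · obtain ⟨H, hH, he⟩ := hmem i
    rw [he, natDegree_map, hT H hH]
  · obtain ⟨H, hH, he⟩ := hmem i
    rw [he, coeff_map, hwv]
    exact coeff_le_cT v hH (hT H hH) j
  · obtain ⟨H, hH, he⟩ := hmem i
    rw [he, leadingCoeff_map, ← map_inv₀, hwv]
    exact lead_le_cT m v hH
  · obtain ⟨k, hk, h⟩ := hx
    refine ⟨(l.map (Polynomial.map (algebraMap L M))).length * k,
      Nat.mul_pos (List.length_pos_iff.2 hne) hk, fun i => ?_⟩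
    rw [sq_add_mul, h]

theorem loc_nonarch {r m : ℕ} (hr : 2 ≤ r) (hm : 1 ≤ m) {T : Finset L[X]}
    (hT : ∀ H ∈ T, H.natDegree = m) {v : AbsoluteValue L ℝ} {w : AbsoluteValue M ℝ}
    (hw : IsNonarchimedean w) (hwv : ∀ z : L, w (algebraMap L M z) = v z)
    {l : List L[X]} (hl : InT T l) {c : L} {x : M}
    (hx : PerPt (compF r (algebraMap L M c) (l.map (Polynomial.map (algebraMap L M)))) x) :
    max (w x) 1 ≤ cT m T v ^ 2 * max (v c) 1 := by
  obtain ⟨h1, h2, h3, k, hk, h4⟩ := orbit_data hT hwv hl hx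
  have h5 := per_nonarch w hw hr hm h1 (one_le_cT m T v) h2 h3 (c := algebraMap L M c)
    (a := sq r (algebraMap L M c) (l.map (Polynomial.map (algebraMap L M))) x)
    (fun i => sq_succ _ _ _ _ i) hk h4 0
  rw [hwv, sq_zero] at h5
  exact h5

theorem loc_any {r m : ℕ} (hr : 2 ≤ r) (hm : 1 ≤ m) {T : Finset L[X]}
    (hT : ∀ H ∈ T, H.natDegree = m) {v : AbsoluteValue L ℝ} {w : AbsoluteValue M ℝ}
    (hwv : ∀ z : L, w (algebraMap L M z) = v z)
    {l : List L[X]} (hl : InT T l) {c : L} {x : M}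
    (hx : PerPt (compF r (algebraMap L M c) (l.map (Polynomial.map (algebraMap L M)))) x) :
    max (w x) 1 ≤ (2 * cT m T v * (m * cT m T v + 1)) * max (v c) 1 := by
  obtain ⟨h1, h2, h3, k, hk, h4⟩ := orbit_data hT hwv hl hx
  have h5 := per_any w hr hm h1 (one_le_cT m T v) h2 h3 (c := algebraMap L M c)
    (a := sq r (algebraMap L M c) (l.map (Polynomial.map (algebraMap L M))) x)
    (fun i => sq_succ _ _ _ _ i) hk h4 0
  rw [hwv, sq_zero] at h5
  exact h5

end Orbit

end Ht1Aux

open Ht1Aux AdmissibleAbsValues in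
/-- R8.  Adapt UBQ/Ht1.lean: `A v` = maximum of 1 and all `v (H.coeff i)`, `v (H.leadingCoeff)⁻¹`,
`H ∈ T`, at the nonarchimedean places, and the constants of `per_any` at the others.  For a list `l`
over `M` use the orbit `UBC.SeqListAux.sq r c l x` and `Hs l` (UBC/SeqList.lean: `sq_succ`,
`sq_add_mul`, `Hs_mem`, `common_period`). -/
theorem ht_upper (L : Type u) [Field L] [NumberField L] {r m : ℕ} (hr : 2 ≤ r) (hm : 1 ≤ m)
    (T : Finset L[X]) (hT : ∀ H ∈ T, H.natDegree = m) :
    ∃ C : ℝ, ∀ (l : List L[X]) (c s p : L), InT T l → QPair r l c s p →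
      logHeight₁ s ≤ logHeight₁ c + C ∧ logHeight₁ p ≤ 2 * logHeight₁ c + C := by
  classical
  let B : AbsoluteValue L ℝ → ℝ := fun v =>
    if v ∈ nonarchAbsVal (K := L) then (cT m T v ^ 2) ^ 2
    else (4 * (cT m T v * (m * cT m T v + 1))) ^ 2
  have hB : Ok L B := by
    constructor
    · intro v
      have h1 := one_le_cT m T v
      by_cases hv : v ∈ nonarchAbsVal (K := L)
      · simp only [B, if_pos hv]
        exact one_le_pow₀ (one_le_pow₀ h1)
      · simp only [B, if_neg hv]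
        refine one_le_pow₀ ?_
        have h2 : (0 : ℝ) ≤ m * cT m T v := by positivity
        nlinarith
    · refine (fin_cT m T).subset ?_
      rintro v ⟨hv, hv2⟩
      refine ⟨hv, fun h1 => hv2 ?_⟩
      simp only [B, if_pos hv, h1, one_pow]
  obtain ⟨C, hC⟩ := height_le_of_local L B hB
  refine ⟨C, fun l c s p hl hpair => ?_⟩
  obtain ⟨M, i1, i2, i3, x, y, hxy, hx, hy, hs, hp⟩ := hpair.field
  -- local estimates
  have key : ∀ v, IsPl L v →
      max (v s) 1 ≤ B v * max (v c) 1 ∧ max (v p) 1 ≤ B v * max (v c) 1 ^ 2 := by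
    intro v hv
    have hA1 := one_le_cT m T v
    obtain ⟨U, hU⟩ : ∃ U : ℝ, U = max (v c) 1 := ⟨_, rfl⟩
    have hU1 : 1 ≤ U := by rw [hU]; exact le_max_right _ _
    rw [← hU]
    by_cases hna : v ∈ nonarchAbsVal (K := L)
    · obtain ⟨w, hw, hwv⟩ := exists_abv_ext_nonarch L M v hna
      have ex := loc_nonarch hr hm hT hw hwv hl hx
      have ey := loc_nonarch hr hm hT hw hwv hl hy
      rw [← hU] at ex ey
      obtain ⟨Q, hQ⟩ : ∃ Q : ℝ, Q = cT m T v ^ 2 := ⟨_, rfl⟩
      have hQ1 : 1 ≤ Q := by rw [hQ]; exact one_le_pow₀ hA1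
      rw [← hQ] at ex ey
      have ex1 : w x ≤ Q * U := le_trans (le_max_left _ _) ex
      have ey1 : w y ≤ Q * U := le_trans (le_max_left _ _) ey
      have hBv : B v = Q ^ 2 := by simp only [B, if_pos hna, hQ]
      have hQU : 1 ≤ Q * U := one_le_mul_of_one_le_of_one_le hQ1 hU1
      have hle : Q * U ≤ Q ^ 2 * U := by nlinarith
      constructor
      · refine max_le ?_ ?_
        · rw [← hwv, ← hs, hBv]
          exact le_trans (hw x y) (max_le (le_trans ex1 hle) (le_trans ey1 hle))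
        · rw [hBv]
          exact le_trans hQU hle
      · refine max_le ?_ ?_
        · rw [← hwv, ← hp, map_mul, hBv, ← mul_pow, pow_two]
          exact mul_le_mul ex1 ey1 (w.nonneg y) (by linarith)
        · rw [hBv, ← mul_pow]
          exact one_le_pow₀ hQU
    · have har : v ∈ archAbsVal (K := L) := by
        rcases hv with hv | hv
        · exact hv
        · exact absurd hv hna
      obtain ⟨w, hwv⟩ := exists_abv_ext_arch L M v har
      have ex := loc_any hr hm hT hwv hl hx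
      have ey := loc_any hr hm hT hwv hl hy
      rw [← hU] at ex ey
      obtain ⟨Q, hQ⟩ : ∃ Q : ℝ, Q = cT m T v * (m * cT m T v + 1) := ⟨_, rfl⟩
      have hQ1 : 1 ≤ Q := by
        rw [hQ]
        have h2 : (0 : ℝ) ≤ m * cT m T v := by positivity
        nlinarith
      have hQe : 2 * cT m T v * (m * cT m T v + 1) = 2 * Q := by rw [hQ]; ring
      rw [hQe] at ex ey
      have ex1 : w x ≤ 2 * Q * U := le_trans (le_max_left _ _) ex
      have ey1 : w y ≤ 2 * Q * U := le_trans (le_max_left _ _) ey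
      have hBv : B v = (4 * Q) ^ 2 := by simp only [B, if_neg hna, hQ]
      have hQU : 1 ≤ Q * U := one_le_mul_of_one_le_of_one_le hQ1 hU1
      constructor
      · refine max_le ?_ ?_
        · rw [← hwv, ← hs]
          refine le_trans (w.add_le x y) ?_
          rw [hBv]
          nlinarith
        · rw [hBv]
          nlinarith
      · refine max_le ?_ ?_
        · rw [← hwv, ← hp, map_mul, hBv]
          calc w x * w y ≤ (2 * Q * U) * (2 * Q * U) :=
                mul_le_mul ex1 ey1 (w.nonneg y) (by nlinarith)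
            _ ≤ (4 * Q) ^ 2 * U ^ 2 := by nlinarith [sq_nonneg (Q * U)]
        · rw [hBv, ← mul_pow]
          refine one_le_pow₀ ?_
          nlinarith
  constructor
  · have h := hC (Fin 1) s (fun _ => c) 1 (fun v hv => by
      simpa using (key v hv).1)
    simpa using h
  · have h := hC (Fin 1) p (fun _ => c) 2 (fun v hv => by
      simpa using (key v hv).2)
    simpa using h

end UBQS
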