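import Pool.Agent.UBQS.Defs
import Pool.Agent.UBQ.LocHt2

/-!
# Local distances of periodic orbits of sequences of maps, nonarchimedean case
-/

set_option autoImplicit false
set_option linter.unusedSectionVars false

namespace UBQS

open Polynomial UBC

namespace LocHt2Aux

open UBQ.LocHt2Aux

lemma eval_split {M : Type*} [Field M] {m : ℕ} {H : M[X]} (hdeg : H.natDegree = m) (z : M) :
    H.eval z = H.leadingCoeff * z ^ m + ∑ i ∈ Finset.range m, H.coeff i * z ^ i := by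
  rw [Polynomial.eval_eq_sum_range, Finset.sum_range_succ, hdeg, Polynomial.leadingCoeff, hdeg,
    add_comm]

variable {M : Type*} [Field M] (w : AbsoluteValue M ℝ) (hw : IsNonarchimedean w)

include hw

variable {r m : ℕ} (hr : 2 ≤ r) (hm : 1 ≤ m) {H : M[X]} (hdeg : H.natDegree = m)
  {A : ℝ} (hA : 1 ≤ A) (hcoef : ∀ i, w (H.coeff i) ≤ A) (hlead : w H.leadingCoeff⁻¹ ≤ A)
  {c : M} {t : ℝ} (ht : A ^ 2 < t) (htc : A * w c = t ^ (r * m))

include hr hm hdeg hA hcoef hlead ht htc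

omit hw hr hdeg ht htc hcoef in
lemma lead_pow (hm0 : H ≠ 0) (z : M) : w z ≤ A * w (H.leadingCoeff * z) := by
  have h0 : H.leadingCoeff ≠ 0 := Polynomial.leadingCoeff_ne_zero.mpr hm0
  have h1 : z = H.leadingCoeff⁻¹ * (H.leadingCoeff * z) := by
    rw [← mul_assoc, inv_mul_cancel₀ h0, one_mul]
  calc w z = w H.leadingCoeff⁻¹ * w (H.leadingCoeff * z) := by rw [← map_mul, ← h1]
    _ ≤ A * w (H.leadingCoeff * z) := mul_le_mul_of_nonneg_right hlead (w.nonneg _)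

/-- large points escape -/
lemma esc {z : M} (hz : t < w z) : w z < w (fam r H c z) := by
  have hA0 : (0 : ℝ) < A := by linarith
  have hA2 : A ≤ A ^ 2 := by nlinarith
  have hH0 : H ≠ 0 := by
    rintro rfl
    simp at hdeg
    omega
  have hrm : 2 ≤ r * m := by nlinarith
  have hz1 : 1 < w z := by linarith
  have h1 : H.leadingCoeff * z ^ (r * m) =
      fam r H c z - (c + ∑ i ∈ Finset.range m, H.coeff i * (z ^ r) ^ i) := by
    unfold fam
    rw [eval_split hdeg, ← pow_mul]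
    ring
  have h2 := tail_le w hw (r := r) (m := m) hA hcoef hz1.le (le_refl (w z))
  have hl := lead_pow w hm hA hlead hH0 (z ^ (r * m))
  rw [map_pow] at hl
  have h3 : A * w c < w z ^ (r * m) := by
    rw [htc]
    exact pow_lt_pow_left₀ hz (by linarith) (by omega)
  have h4 : A * (A * w z ^ (r * (m - 1))) < w z ^ (r * m) := by
    have e : r * m = r * (m - 1) + r := by
      obtain ⟨k, rfl⟩ : ∃ k, m = k + 1 := ⟨m - 1, by omega⟩
      rw [Nat.add_sub_cancel]; ring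
    rw [e, pow_add, ← mul_assoc, mul_comm, ← sq]
    refine mul_lt_mul_of_pos_left ?_ (by positivity)
    calc A ^ 2 < w z := by linarith
      _ = w z ^ 1 := (pow_one _).symm
      _ ≤ w z ^ r := pow_le_pow_right₀ hz1.le (by omega)
  have h5 : A * w (c + ∑ i ∈ Finset.range m, H.coeff i * (z ^ r) ^ i) < w z ^ (r * m) := by
    have h51 := hw c (∑ i ∈ Finset.range m, H.coeff i * (z ^ r) ^ i)
    rcases le_max_iff.mp h51 with h | h
    · exact (mul_le_mul_of_nonneg_left h hA0.le).trans_lt h3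
    · exact (mul_le_mul_of_nonneg_left (h.trans h2) hA0.le).trans_lt h4
  have h6 : w z ^ (r * m) ≤ A * w (fam r H c z) := by
    have h7 := sub_le w hw (fam r H c z) (c + ∑ i ∈ Finset.range m, H.coeff i * (z ^ r) ^ i)
    rw [← h1] at h7
    rcases le_max_iff.mp h7 with h | h
    · exact hl.trans (mul_le_mul_of_nonneg_left h hA0.le)
    · exact absurd h5 (not_lt.mpr (hl.trans (mul_le_mul_of_nonneg_left h hA0.le)))
  have h8 : A * w z < w z ^ (r * m) := by
    obtain ⟨k, hk⟩ : ∃ k, r * m = k + 2 := ⟨r * m - 2, by omega⟩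
    have h9 : 1 ≤ w z ^ k := one_le_pow₀ hz1.le
    have h10 : A < w z := by linarith
    calc A * w z < w z * w z := mul_lt_mul_of_pos_right h10 (by linarith)
      _ = 1 * w z ^ 2 := by ring
      _ ≤ w z ^ k * w z ^ 2 := mul_le_mul_of_nonneg_right h9 (by positivity)
      _ = w z ^ (r * m) := by rw [hk, pow_add]
  exact lt_of_mul_lt_mul_left (h8.trans_le h6) hA0.le

omit hcoef hlead hdeg in
lemma lt_c : A * t ^ (r * (m - 1) + 1) < w c := by
  have hA0 : (0 : ℝ) < A := by linarith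
  have ht1 : 1 < t := by nlinarith
  refine lt_of_mul_lt_mul_left (a := A) ?_ hA0.le
  rw [htc]
  have e : r * m = (r * (m - 1) + 1) + (r - 1) := by
    obtain ⟨k, rfl⟩ : ∃ k, m = k + 1 := ⟨m - 1, by omega⟩
    rw [Nat.add_sub_cancel, Nat.mul_succ]
    omega
  rw [e, pow_add _ _ (r - 1), ← mul_assoc, mul_comm, ← sq]
  refine mul_lt_mul_of_pos_left ?_ (by positivity)
  calc A ^ 2 < t := ht
    _ = t ^ 1 := (pow_one _).symm
    _ ≤ t ^ (r - 1) := pow_le_pow_right₀ ht1.le (by omega)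

/-- `ℓ x ^ D + c` is small if `x` and its image are small -/
lemma near_c {x : M} (hx : w x ≤ t) (hx' : w (fam r H c x) ≤ t) :
    w (H.leadingCoeff * x ^ (r * m) + c) ≤ A * t ^ (r * (m - 1) + 1) := by
  have ht1 : 1 ≤ t := by nlinarith
  have h1 : H.leadingCoeff * x ^ (r * m) + c =
      fam r H c x - ∑ i ∈ Finset.range m, H.coeff i * (x ^ r) ^ i := by
    unfold fam
    rw [eval_split hdeg, ← pow_mul]
    ring
  have h2 := tail_le w hw (r := r) (m := m) hA hcoef ht1 hx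
  rw [h1]
  refine (sub_le w hw _ _).trans (max_le (hx'.trans ?_) (h2.trans ?_))
  · calc t = 1 * t ^ 1 := by rw [one_mul, pow_one]
      _ ≤ A * t ^ (r * (m - 1) + 1) :=
        mul_le_mul hA (pow_le_pow_right₀ ht1 (by omega)) (by positivity) (by linarith)
  · exact mul_le_mul_of_nonneg_left (pow_le_pow_right₀ ht1 (by omega)) (by linarith)

/-- the size of a small point with small image -/
lemma pow_eq {x : M} (hx : w x ≤ t) (hx' : w (fam r H c x) ≤ t) :
    w (H.leadingCoeff * x ^ (r * m)) = w c := by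
  have h1 := (near_c w hw hr hm hdeg hA hcoef hlead ht htc hx hx').trans_lt
    (lt_c w hw hr hm hA ht htc)
  apply le_antisymm
  · have h2 := sub_le w hw (H.leadingCoeff * x ^ (r * m) + c) c
    rw [add_sub_cancel_right] at h2
    exact h2.trans (max_le h1.le le_rfl)
  · have h2 := sub_le w hw (H.leadingCoeff * x ^ (r * m) + c) (H.leadingCoeff * x ^ (r * m))
    rw [add_sub_cancel_left] at h2
    rcases le_max_iff.mp h2 with h | h
    · exact absurd h1 (not_lt.mpr h)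
    · exact h

end LocHt2Aux

open UBQ.LocHt2Aux LocHt2Aux

/-- points of a periodic orbit are small -/
lemma LocHt2Aux.per_le {M : Type*} [Field M] (w : AbsoluteValue M ℝ) (hw : IsNonarchimedean w)
    {r m : ℕ} (hr : 2 ≤ r) (hm : 1 ≤ m) {H : ℕ → M[X]} (hdeg : ∀ i, (H i).natDegree = m)
    {A : ℝ} (hA : 1 ≤ A) (hcoef : ∀ i j, w ((H i).coeff j) ≤ A)
    (hlead : ∀ i, w (H i).leadingCoeff⁻¹ ≤ A) {c : M} {t : ℝ} (ht : A ^ 2 < t)
    (htc : A * w c = t ^ (r * m)) {a : ℕ → M}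
    (ha : ∀ i, a (i + 1) = fam r (H i) c (a i))
    {L : ℕ} (hL : 0 < L) (haL : ∀ i, a (i + L) = a i) (i : ℕ) : w (a i) ≤ t := by
  by_contra hlt
  push Not at hlt
  have h1 : ∀ k : ℕ, t < w (a (i + k)) ∧ w (a i) ≤ w (a (i + k)) ∧
      (0 < k → w (a i) < w (a (i + k))) := by
    intro k
    induction k with
    | zero => exact ⟨hlt, le_rfl, fun h => absurd h (lt_irrefl 0)⟩
    | succ k ih =>
      rw [← add_assoc, ha (i + k)]
      have h2 := LocHt2Aux.esc w hw hr hm (hdeg (i + k)) hA (hcoef (i + k)) (hlead (i + k)) ht htc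
        ih.1
      exact ⟨ih.1.trans h2, (ih.2.1.trans_lt h2).le, fun _ => ih.2.1.trans_lt h2⟩
  have h2 := (h1 L).2.2 hL
  rw [haL] at h2
  exact lt_irrefl _ h2

/-- R6. nonarchimedean: `x ^ (r m)` and `y ^ (r m)` are close to each other, `x = a 0`, `y = b 0`
(adapt UBQ/LocHt2.lean).

Proof.  `D = r m`; if `w c ≤ A ^ (2 D)` the claim is clear.  Let `w c > A ^ (2 D)` and `t ≥ 1` the
real number with `t ^ D = A (w c)`, so `t > A ^ 2`.  Let `R` be the maximal absolute value in the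
orbit `a`, attained at `z = a i`, `ℓ` the leading coefficient of `H i`.  If `R ≥ 1` then
`ℓ z ^ D = a (i + 1) - c - ∑ k < m, a_k z ^ (r k)` gives `R ^ D ≤ A max (w c) (A R ^ (D - 1))`, so
`R ^ D ≤ A (w c)` (if `R ≤ A ^ 2` then `R ^ D ≤ A ^ (2 D) < w c`).  Hence `max R 1 ≤ t`.  Let now
`ℓ` be the leading coefficient of `H 0`, `X = ℓ x ^ D`, `Y = ℓ y ^ D`.  Then
`w (X + c) = w (a 1 - ∑ k < m, ..) ≤ A t ^ (D - r + 1) < t ^ D / A = w c` (`D - r + 1 = r (m - 1) + 1`,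
`A ^ 2 < t ≤ t ^ (r - 1)`), so `w X = w c`; the same for `Y`, and `w (X - Y) ≤ A t ^ (D - r + 1)`.
So the number `β = w ((x y) ^ D / (x ^ D - y ^ D) ^ 2) = w (X Y / (X - Y) ^ 2)` is at least
`t ^ (2 (r - 1)) / A ^ 4` and `β ^ m ≥ t ^ (2 m (r - 1)) / A ^ (4 m) ≥ w c / A ^ (4 m)` because
`2 m (r - 1) ≥ D`. -/
theorem near_nonarch {M : Type*} [Field M] (w : AbsoluteValue M ℝ) (hw : IsNonarchimedean w)
    {r m : ℕ} (hr : 2 ≤ r) (hm : 1 ≤ m) {H : ℕ → M[X]} (hdeg : ∀ i, (H i).natDegree = m)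
    {A : ℝ} (hA : 1 ≤ A) (hcoef : ∀ i j, w ((H i).coeff j) ≤ A)
    (hlead : ∀ i, w (H i).leadingCoeff⁻¹ ≤ A) {c : M} {a b : ℕ → M}
    (ha : ∀ i, a (i + 1) = fam r (H i) c (a i)) (hb : ∀ i, b (i + 1) = fam r (H i) c (b i))
    {L : ℕ} (hL : 0 < L) (haL : ∀ i, a (i + L) = a i) (hbL : ∀ i, b (i + L) = b i)
    (hxy : a 0 ^ (r * m) ≠ b 0 ^ (r * m)) :
    max (w c) 1 ≤ A ^ (4 * (r * m)) *
      max (w ((a 0 * b 0) ^ (r * m) / (a 0 ^ (r * m) - b 0 ^ (r * m)) ^ 2)) 1 ^ m := by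
  set x := a 0 with hx0
  set y := b 0 with hy0
  set β := w ((x * y) ^ (r * m) / (x ^ (r * m) - y ^ (r * m)) ^ 2) with hβ
  have hA0 : (0 : ℝ) < A := by linarith
  have hAD : A ^ (2 * (r * m)) ≤ A ^ (4 * (r * m)) := pow_le_pow_right₀ hA (by omega)
  have hb1 : (1 : ℝ) ≤ max β 1 ^ m := one_le_pow₀ (le_max_right _ _)
  have hA1 : (1 : ℝ) ≤ A ^ (2 * (r * m)) := one_le_pow₀ hA
  by_cases hc : w c ≤ A ^ (2 * (r * m))
  · calc max (w c) 1 ≤ A ^ (2 * (r * m)) := max_le hc hA1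
      _ ≤ A ^ (4 * (r * m)) := hAD
      _ = A ^ (4 * (r * m)) * 1 := (mul_one _).symm
      _ ≤ A ^ (4 * (r * m)) * max β 1 ^ m := mul_le_mul_of_nonneg_left hb1 (by positivity)
  push Not at hc
  have hD0 : r * m ≠ 0 := by
    have : 2 ≤ r * m := by nlinarith
    omega
  have hAc0 : 0 ≤ A * w c := mul_nonneg hA0.le (w.nonneg c)
  obtain ⟨t, ht0, htc⟩ : ∃ t : ℝ, 0 ≤ t ∧ A * w c = t ^ (r * m) :=
    ⟨(A * w c) ^ (((r * m : ℕ) : ℝ)⁻¹), Real.rpow_nonneg hAc0 _,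
      (Real.rpow_inv_natCast_pow hAc0 hD0).symm⟩
  have hwc1 : 1 ≤ w c := by linarith
  have ht : A ^ 2 < t := by
    refine lt_of_pow_lt_pow_left₀ (r * m) ht0 ?_
    rw [← pow_mul, ← htc]
    calc A ^ (2 * (r * m)) < w c := hc
      _ = 1 * w c := (one_mul _).symm
      _ ≤ A * w c := mul_le_mul_of_nonneg_right hA (by linarith)
  have ht1 : 1 ≤ t := by nlinarith
  have htpos : 0 < t := by linarith
  have hax := LocHt2Aux.per_le w hw hr hm hdeg hA hcoef hlead ht htc ha hL haL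
  have hby := LocHt2Aux.per_le w hw hr hm hdeg hA hcoef hlead ht htc hb hL hbL
  have hx1 : w x ≤ t := hax 0
  have hy1 : w y ≤ t := hby 0
  have hx2 : w (fam r (H 0) c x) ≤ t := by
    have := hax 1
    rwa [← zero_add 1, ha 0] at this
  have hy2 : w (fam r (H 0) c y) ≤ t := by
    have := hby 1
    rwa [← zero_add 1, hb 0] at this
  set ℓ := (H 0).leadingCoeff with hℓ
  have hℓ0 : ℓ ≠ 0 := by
    rw [hℓ, Polynomial.leadingCoeff_ne_zero]
    intro h0
    have := hdeg 0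
    rw [h0, Polynomial.natDegree_zero] at this
    omega
  have hxc := LocHt2Aux.pow_eq w hw hr hm (hdeg 0) hA (hcoef 0) (hlead 0) ht htc hx1 hx2
  have hyc := LocHt2Aux.pow_eq w hw hr hm (hdeg 0) hA (hcoef 0) (hlead 0) ht htc hy1 hy2
  have hdist : w (ℓ * x ^ (r * m) - ℓ * y ^ (r * m)) ≤ A * t ^ (r * (m - 1) + 1) := by
    have h1 := UBQ.LocHt2Aux.sub_le w hw (ℓ * x ^ (r * m) + c) (ℓ * y ^ (r * m) + c)
    rw [add_sub_add_right_eq_sub] at h1
    exact h1.trans (max_le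
      (LocHt2Aux.near_c w hw hr hm (hdeg 0) hA (hcoef 0) (hlead 0) ht htc hx1 hx2)
      (LocHt2Aux.near_c w hw hr hm (hdeg 0) hA (hcoef 0) (hlead 0) ht htc hy1 hy2))
  have hne : ℓ * x ^ (r * m) - ℓ * y ^ (r * m) ≠ 0 := by
    rw [← mul_sub]
    exact mul_ne_zero hℓ0 (sub_ne_zero.mpr hxy)
  have hpos : 0 < w (ℓ * x ^ (r * m) - ℓ * y ^ (r * m)) := w.pos hne
  have hbval : β = (w c) ^ 2 / w (ℓ * x ^ (r * m) - ℓ * y ^ (r * m)) ^ 2 := by
    have h1 : (x * y) ^ (r * m) / (x ^ (r * m) - y ^ (r * m)) ^ 2 =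
        (ℓ * x ^ (r * m)) * (ℓ * y ^ (r * m)) / (ℓ * x ^ (r * m) - ℓ * y ^ (r * m)) ^ 2 := by
      have h2 : x ^ (r * m) - y ^ (r * m) ≠ 0 := sub_ne_zero.mpr hxy
      rw [← mul_sub, mul_pow, mul_pow]
      field_simp
    rw [hβ, h1, map_div₀, map_pow w (_ - _), map_mul w (ℓ * x ^ (r * m)), hxc, hyc, sq (w c)]
  -- lower bound for `β`
  have e : r * m = (r * (m - 1) + 1) + (r - 1) := by
    obtain ⟨k, rfl⟩ : ∃ k, m = k + 1 := ⟨m - 1, by omega⟩
    rw [Nat.add_sub_cancel, Nat.mul_succ]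
    omega
  have hblow : (t ^ (r - 1)) ^ 2 ≤ A ^ 4 * β := by
    rw [hbval, ← mul_div_assoc, le_div_iff₀ (by positivity)]
    have h1 : t ^ (r * m) = t ^ (r * (m - 1) + 1) * t ^ (r - 1) := by
      rw [← pow_add, ← e]
    have h2 : w (ℓ * x ^ (r * m) - ℓ * y ^ (r * m)) ^ 2 ≤ (A * t ^ (r * (m - 1) + 1)) ^ 2 :=
      pow_le_pow_left₀ hpos.le hdist 2
    calc (t ^ (r - 1)) ^ 2 * w (ℓ * x ^ (r * m) - ℓ * y ^ (r * m)) ^ 2
        ≤ (t ^ (r - 1)) ^ 2 * (A * t ^ (r * (m - 1) + 1)) ^ 2 :=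
          mul_le_mul_of_nonneg_left h2 (by positivity)
      _ = A ^ 2 * (t ^ (r * m)) ^ 2 := by rw [h1]; ring
      _ = A ^ 4 * w c ^ 2 := by rw [← htc]; ring
  have hb0 : 0 ≤ β := w.nonneg _
  have hfin : w c ≤ A ^ (4 * m) * β ^ m := by
    calc w c = 1 * w c := (one_mul _).symm
      _ ≤ A * w c := mul_le_mul_of_nonneg_right hA (by linarith)
      _ = t ^ (r * m) := htc
      _ ≤ t ^ (2 * (r - 1) * m) := by
        refine pow_le_pow_right₀ ht1 (Nat.mul_le_mul_right m ?_)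
        omega
      _ = ((t ^ (r - 1)) ^ 2) ^ m := by
        rw [← pow_mul, ← pow_mul]
        congr 1
        ring
      _ ≤ (A ^ 4 * β) ^ m := pow_le_pow_left₀ (by positivity) hblow m
      _ = A ^ (4 * m) * β ^ m := by rw [mul_pow, ← pow_mul]
  rw [max_eq_left hwc1]
  calc w c ≤ A ^ (4 * m) * β ^ m := hfin
    _ ≤ A ^ (4 * (r * m)) * max β 1 ^ m := by
      refine mul_le_mul (pow_le_pow_right₀ hA ?_) (pow_le_pow_left₀ hb0 (le_max_left _ _) m)
        (by positivity) (by positivity)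
      nlinarith

end UBQS
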