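import Pool.Agent.UBQS.Defs
import Pool.Agent.UBQ.LocHt3

/-!
# Local distances of periodic orbits of sequences of maps, any absolute value
-/

set_option autoImplicit false

namespace UBQS

open Polynomial UBC

namespace LocHt3Aux

variable {M : Type*} [Field M] (w : AbsoluteValue M ℝ)

theorem eval_eq {m : ℕ} {H : M[X]} (hdeg : H.natDegree = m) (u : M) :
    H.eval u = H.leadingCoeff * u ^ m + ∑ i ∈ Finset.range m, H.coeff i * u ^ i := by
  rw [Polynomial.eval_eq_sum_range, hdeg, Finset.sum_range_succ]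
  have h1 : H.coeff m = H.leadingCoeff := by rw [← hdeg]; rfl
  rw [h1, add_comm]

/-- `ℓ z ^ D + c` is small -/
theorem near_neg {r m : ℕ} {H : M[X]}
    (hdeg : H.natDegree = m) {A : ℝ} (hA : 1 ≤ A) (hcoef : ∀ i, w (H.coeff i) ≤ A) {c z : M}
    {T : ℝ} (hT : 1 ≤ T) (hz : w z ≤ T) (hfz : w (fam r H c z) ≤ T) :
    w (H.leadingCoeff * z ^ (r * m) + c) ≤ (m * A + 1) * T ^ (r * (m - 1) + 1) := by
  have h1 : H.leadingCoeff * z ^ (r * m) + c =
      fam r H c z + -(∑ i ∈ Finset.range m, H.coeff i * (z ^ r) ^ i) := by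
    unfold fam
    rw [eval_eq hdeg, pow_mul]
    ring
  rw [h1]
  have h2 := UBQ.LocHt3Aux.lower w (r := r) (m := m) hA hcoef hT hz
  have h3 : T ^ (r * (m - 1)) ≤ T ^ (r * (m - 1) + 1) := pow_le_pow_right₀ hT (Nat.le_succ _)
  have h4 : T ≤ T ^ (r * (m - 1) + 1) := le_self_pow₀ hT (Nat.succ_ne_zero _)
  have h5 : (0 : ℝ) ≤ m * A := mul_nonneg (Nat.cast_nonneg m) (by linarith)
  calc w (fam r H c z + -(∑ i ∈ Finset.range m, H.coeff i * (z ^ r) ^ i))
      ≤ w (fam r H c z) + w (-(∑ i ∈ Finset.range m, H.coeff i * (z ^ r) ^ i)) := w.add_le _ _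
    _ = w (fam r H c z) + w (∑ i ∈ Finset.range m, H.coeff i * (z ^ r) ^ i) := by
        rw [w.map_neg]
    _ ≤ T ^ (r * (m - 1) + 1) + m * A * T ^ (r * (m - 1) + 1) :=
        add_le_add (hfz.trans h4) (h2.trans (mul_le_mul_of_nonneg_left h3 h5))
    _ = (m * A + 1) * T ^ (r * (m - 1) + 1) := by ring

theorem lead_ne {m : ℕ} (hm : 1 ≤ m) {H : M[X]} (hdeg : H.natDegree = m) :
    H.leadingCoeff ≠ 0 := by
  rw [Ne, Polynomial.leadingCoeff_eq_zero]
  intro h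
  rw [h, Polynomial.natDegree_zero] at hdeg
  omega

/-- the orbit is bounded by `2 A t` -/
theorem orbit_le {r m : ℕ} (hr : 2 ≤ r) (hm : 1 ≤ m) {H : ℕ → M[X]}
    (hdeg : ∀ i, (H i).natDegree = m) {A : ℝ} (hA : 1 ≤ A)
    (hcoef : ∀ i j, w ((H i).coeff j) ≤ A) (hlead : ∀ i, w (H i).leadingCoeff⁻¹ ≤ A) {c : M}
    {a : ℕ → M} (ha : ∀ i, a (i + 1) = fam r (H i) c (a i)) {L : ℕ} (hL : 0 < L)
    (haL : ∀ i, a (i + L) = a i)
    {t : ℝ} (ht : t ^ (r * m) = w c) (ht2 : 2 * (m * A + 1) ≤ t) (n : ℕ) :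
    w (a n) ≤ 2 * A * t := by
  have hper : Function.Periodic a L := haL
  have hmA : (0 : ℝ) ≤ m * A := mul_nonneg (Nat.cast_nonneg m) (by linarith)
  obtain ⟨j, hj, hmax⟩ := Finset.exists_max_image (Finset.range L)
    (fun j => w (a j)) ⟨0, Finset.mem_range.2 hL⟩
  have hall : ∀ l, w (a l) ≤ w (a j) := by
    intro l
    rw [← hper.map_mod_nat l]
    exact hmax _ (Finset.mem_range.2 (Nat.mod_lt _ hL))
  refine (hall n).trans ?_
  obtain ⟨z, hz⟩ : ∃ z, z = a j := ⟨_, rfl⟩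
  have hfz : w (fam r (H j) c z) ≤ w z := by
    rw [hz, ← ha]
    exact hall _
  rw [← hz]
  by_contra hcon
  push Not at hcon
  have ht0 : 0 ≤ t := by linarith
  have ht1 : 1 ≤ t := by linarith
  have hAt : t ≤ A * t := le_mul_of_one_le_left ht0 hA
  have hR1 : 1 ≤ w z := by nlinarith
  have h1 := near_neg w (hdeg j) hA (hcoef j) hR1 le_rfl hfz
  have he : r * m = r * (m - 1) + 1 + (r - 1) := by
    obtain ⟨m', rfl⟩ : ∃ m', m = m' + 1 := ⟨m - 1, by omega⟩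
    rw [Nat.add_sub_cancel, Nat.mul_succ]
    omega
  have hD2 : 2 ≤ r * m := by
    calc 2 ≤ r := hr
      _ ≤ r * m := Nat.le_mul_of_pos_right _ hm
  have hl0 := lead_ne hm (hdeg j)
  have h2 : w z ^ (r * m) ≤ A * (w ((H j).leadingCoeff * z ^ (r * m) + c) + w c) := by
    have h3 : z ^ (r * m) =
        (H j).leadingCoeff⁻¹ * (((H j).leadingCoeff * z ^ (r * m) + c) + -c) := by
      field_simp
      ring
    calc w z ^ (r * m) = w (z ^ (r * m)) := (map_pow w z _).symm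
      _ = w ((H j).leadingCoeff⁻¹) * w (((H j).leadingCoeff * z ^ (r * m) + c) + -c) := by
          conv_lhs => rw [h3]
          rw [map_mul]
      _ ≤ A * (w ((H j).leadingCoeff * z ^ (r * m) + c) + w c) := by
          apply mul_le_mul (hlead j) _ (w.nonneg _) (by linarith)
          refine (w.add_le _ _).trans ?_
          rw [w.map_neg]
  have h4 : 4 * (A * w c) ≤ w z ^ (r * m) := by
    rw [← ht]
    calc 4 * (A * t ^ (r * m)) = (2 ^ 2 * A ^ 1) * t ^ (r * m) := by ring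
      _ ≤ (2 ^ (r * m) * A ^ (r * m)) * t ^ (r * m) := by
          apply mul_le_mul_of_nonneg_right _ (pow_nonneg ht0 _)
          apply mul_le_mul (pow_le_pow_right₀ (by norm_num) hD2)
            (pow_le_pow_right₀ hA (by omega)) (by positivity) (by positivity)
      _ = (2 * A * t) ^ (r * m) := by rw [mul_pow, mul_pow]
      _ ≤ w z ^ (r * m) := pow_le_pow_left₀ (by positivity) hcon.le _
  have h5 : w z ^ (r * m) = w z ^ (r * (m - 1) + 1) * w z ^ (r - 1) := by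
    rw [← pow_add, ← he]
  have h6 : w z ≤ w z ^ (r - 1) := le_self_pow₀ hR1 (by omega)
  have hpos : 0 < w z ^ (r * (m - 1) + 1) := pow_pos (by linarith) _
  have h7 : 3 / 4 * w z ^ (r - 1) ≤ A * (m * A + 1) := by
    have h8 : (3 / 4 * w z ^ (r - 1)) * w z ^ (r * (m - 1) + 1) ≤
        (A * (m * A + 1)) * w z ^ (r * (m - 1) + 1) := by
      have h10 : A * w ((H j).leadingCoeff * z ^ (r * m) + c) ≤
          A * ((m * A + 1) * w z ^ (r * (m - 1) + 1)) :=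
        mul_le_mul_of_nonneg_left h1 (by linarith)
      have h9 : w z ^ (r * m) ≤ A * ((m * A + 1) * w z ^ (r * (m - 1) + 1)) +
          w z ^ (r * m) / 4 := by
        linarith
      rw [h5] at h9
      linarith
    exact le_of_mul_le_mul_right h8 hpos
  have h11 : 2 * A * (2 * (m * A + 1)) ≤ 2 * A * t :=
    mul_le_mul_of_nonneg_left ht2 (by linarith)
  have h12 : 0 < A * (m * A + 1) := by positivity
  nlinarith

/-- `ℓ x ^ D` is close to `- c` -/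
theorem close {r m : ℕ} (hr : 2 ≤ r) (hm : 1 ≤ m) {H : ℕ → M[X]}
    (hdeg : ∀ i, (H i).natDegree = m) {A : ℝ} (hA : 1 ≤ A)
    (hcoef : ∀ i j, w ((H i).coeff j) ≤ A) (hlead : ∀ i, w (H i).leadingCoeff⁻¹ ≤ A) {c : M}
    {a : ℕ → M} (ha : ∀ i, a (i + 1) = fam r (H i) c (a i)) {L : ℕ} (hL : 0 < L)
    (haL : ∀ i, a (i + L) = a i)
    {t : ℝ} (ht : t ^ (r * m) = w c) (ht2 : 2 * (m * A + 1) ≤ t) :
    w ((H 0).leadingCoeff * a 0 ^ (r * m) + c) ≤
      ((m * A + 1) * (2 * A) ^ (r * m)) * t ^ (r * (m - 1) + 1) := by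
  have h0 := orbit_le w hr hm hdeg hA hcoef hlead ha hL haL ht ht2 0
  have h1 := orbit_le w hr hm hdeg hA hcoef hlead ha hL haL ht ht2 1
  have ha1 : a 1 = fam r (H 0) c (a 0) := ha 0
  rw [ha1] at h1
  have hmA : (0 : ℝ) ≤ m * A := mul_nonneg (Nat.cast_nonneg m) (by linarith)
  have ht1 : 1 ≤ t := by linarith
  have h2A : 1 ≤ 2 * A := by linarith
  have hT : 1 ≤ 2 * A * t := one_le_mul_of_one_le_of_one_le h2A ht1
  have h2 := near_neg w (hdeg 0) hA (hcoef 0) hT h0 h1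
  refine h2.trans ?_
  rw [mul_pow (2 * A) t, mul_assoc]
  apply mul_le_mul_of_nonneg_left _ (by linarith)
  apply mul_le_mul_of_nonneg_right _ (pow_nonneg (by linarith) _)
  apply pow_le_pow_right₀ h2A
  obtain ⟨m', rfl⟩ : ∃ m', m = m' + 1 := ⟨m - 1, by omega⟩
  rw [Nat.add_sub_cancel, Nat.mul_succ]
  omega

end LocHt3Aux

/-- R7. any absolute value: `x ^ (r m)` and `y ^ (r m)` are close to each other, `x = a 0`, `y = b 0`
(adapt UBQ/LocHt3.lean).

Proof.  `D = r m`, `A' = m A + 1`, `A'' = A' (2 A) ^ D`; if `w c ≤ (2 A'') ^ D` the claim is clear.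
Otherwise let `t ≥ 1` be the real number with `t ^ D = w c`, so `t ≥ 2 A''`.  Let `R` be the maximal
absolute value in the orbit `a`, attained at `z = a i`, `ℓ` the leading coefficient of `H i`.  If
`R ≥ 1` then `ℓ z ^ D = a (i + 1) - c - ∑ k < m, a_k z ^ (r k)` gives
`R ^ D ≤ A (w c) + A A' R ^ (D - r + 1)` (`D - r + 1 = r (m - 1) + 1`).  Hence `max R 1 ≤ 2 A t`:
otherwise `R ^ D > 4 A (w c)`, so `R ^ (r - 1) < 2 A A'`, `R < 2 A A'`, a contradiction to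
`R > 2 A t ≥ 4 A''`.  Let now `ℓ` be the leading coefficient of `H 0`, `X = ℓ x ^ D`, `Y = ℓ y ^ D`.
Then `w (X + c) = w (a 1 - ∑ k < m, ..) ≤ A' (2 A t) ^ (D - r + 1) ≤ A'' t ^ (D - r + 1) ≤ t ^ D / 2`,
so `w X ≥ w c / 2`; the same for `Y`, and `w (X - Y) ≤ 2 A'' t ^ (D - r + 1)`.  So the number
`β = w ((x y) ^ D / (x ^ D - y ^ D) ^ 2) = w (X Y / (X - Y) ^ 2)` is at least
`t ^ (2 (r - 1)) / (4 A'') ^ 2` and `β ^ m ≥ t ^ (2 m (r - 1)) / (4 A'') ^ (2 m) ≥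
w c / (4 A'') ^ (2 m)` because `2 m (r - 1) ≥ D`. -/
theorem near_any {M : Type*} [Field M] (w : AbsoluteValue M ℝ)
    {r m : ℕ} (hr : 2 ≤ r) (hm : 1 ≤ m) {H : ℕ → M[X]} (hdeg : ∀ i, (H i).natDegree = m)
    {A : ℝ} (hA : 1 ≤ A) (hcoef : ∀ i j, w ((H i).coeff j) ≤ A)
    (hlead : ∀ i, w (H i).leadingCoeff⁻¹ ≤ A) {c : M} {a b : ℕ → M}
    (ha : ∀ i, a (i + 1) = fam r (H i) c (a i)) (hb : ∀ i, b (i + 1) = fam r (H i) c (b i))
    {L : ℕ} (hL : 0 < L) (haL : ∀ i, a (i + L) = a i) (hbL : ∀ i, b (i + L) = b i)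
    (hxy : a 0 ^ (r * m) ≠ b 0 ^ (r * m)) :
    max (w c) 1 ≤ (4 * ((m * A + 1) * (2 * A) ^ (r * m))) ^ (2 * (r * m)) *
      max (w ((a 0 * b 0) ^ (r * m) / (a 0 ^ (r * m) - b 0 ^ (r * m)) ^ 2)) 1 ^ m := by
  have hmA : (0 : ℝ) ≤ m * A := mul_nonneg (Nat.cast_nonneg m) (by linarith)
  obtain ⟨B, hB⟩ : ∃ B : ℝ, B = (m * A + 1) * (2 * A) ^ (r * m) := ⟨_, rfl⟩
  have h2D : (1 : ℝ) ≤ (2 * A) ^ (r * m) := one_le_pow₀ (by linarith)
  have hB1 : m * A + 1 ≤ B := by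
    rw [hB]
    exact le_mul_of_one_le_right (by linarith) h2D
  have hB0 : 1 ≤ B := by linarith
  have hD1 : 1 ≤ r * m := by
    calc 1 ≤ r := by omega
      _ ≤ r * m := Nat.le_mul_of_pos_right _ hm
  rw [← hB]
  obtain ⟨x, hx⟩ : ∃ x : M, x = a 0 := ⟨_, rfl⟩
  obtain ⟨y, hy⟩ : ∃ y : M, y = b 0 := ⟨_, rfl⟩
  rw [← hx, ← hy] at hxy
  rw [← hx, ← hy]
  obtain ⟨β, hβ⟩ : ∃ β : ℝ, β = w ((x * y) ^ (r * m) / (x ^ (r * m) - y ^ (r * m)) ^ 2) :=
    ⟨_, rfl⟩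
  rw [← hβ]
  have hmax1 : (1 : ℝ) ≤ max β 1 ^ m := one_le_pow₀ (le_max_right _ _)
  by_cases hc : w c ≤ (2 * B) ^ (r * m)
  · have h1 : max (w c) 1 ≤ (2 * B) ^ (r * m) := max_le hc (one_le_pow₀ (by linarith))
    have h2 : (2 * B) ^ (r * m) ≤ (4 * B) ^ (2 * (r * m)) := by
      calc (2 * B) ^ (r * m) ≤ (4 * B) ^ (r * m) := pow_le_pow_left₀ (by linarith) (by linarith) _
        _ ≤ (4 * B) ^ (2 * (r * m)) := pow_le_pow_right₀ (by linarith) (by omega)
    exact (h1.trans h2).trans (le_mul_of_one_le_right (pow_nonneg (by linarith) _) hmax1)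
  · push Not at hc
    have hwc0 : 0 ≤ w c := w.nonneg c
    obtain ⟨t, ht0, ht⟩ : ∃ t : ℝ, 0 ≤ t ∧ t ^ (r * m) = w c :=
      ⟨(w c) ^ (((r * m : ℕ) : ℝ)⁻¹), Real.rpow_nonneg hwc0 _,
        Real.rpow_inv_natCast_pow hwc0 (by omega)⟩
    have ht2 : 2 * B < t := by
      rw [← ht] at hc
      exact lt_of_pow_lt_pow_left₀ _ ht0 hc
    have ht1 : 1 ≤ t := by linarith
    have hcx := LocHt3Aux.close w hr hm hdeg hA hcoef hlead ha hL haL ht (by linarith)
    have hcy := LocHt3Aux.close w hr hm hdeg hA hcoef hlead hb hL hbL ht (by linarith)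
    rw [← hB, ← hx] at hcx
    rw [← hB, ← hy] at hcy
    have hl0 := LocHt3Aux.lead_ne hm (hdeg 0)
    obtain ⟨ℓ, hℓ⟩ : ∃ ℓ : M, ℓ = (H 0).leadingCoeff := ⟨_, rfl⟩
    rw [← hℓ] at hcx hcy hl0
    obtain ⟨X, hX⟩ : ∃ X : M, X = ℓ * x ^ (r * m) := ⟨_, rfl⟩
    obtain ⟨Y, hY⟩ : ∃ Y : M, Y = ℓ * y ^ (r * m) := ⟨_, rfl⟩
    rw [← hX] at hcx
    rw [← hY] at hcy
    have he : r * m = r * (m - 1) + 1 + (r - 1) := by
      obtain ⟨m', rfl⟩ : ∃ m', m = m' + 1 := ⟨m - 1, by omega⟩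
      rw [Nat.add_sub_cancel, Nat.mul_succ]
      omega
    have hte : 0 < t ^ (r * (m - 1) + 1) := pow_pos (by linarith) _
    have htD : t ^ (r * m) = t ^ (r * (m - 1) + 1) * t ^ (r - 1) := by rw [← pow_add, ← he]
    have htr : t ≤ t ^ (r - 1) := le_self_pow₀ ht1 (by omega)
    have hhalf : B * t ^ (r * (m - 1) + 1) ≤ t ^ (r * m) / 2 := by
      rw [htD]
      have h1 : 2 * B ≤ t ^ (r - 1) := by linarith
      nlinarith
    have hlow : ∀ u : M, w (u + c) ≤ B * t ^ (r * (m - 1) + 1) →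
        t ^ (r * m) / 2 ≤ w u := by
      intro u hu
      have h3 : c = (u + c) + -u := by ring
      have h4 : w c ≤ w (u + c) + w u := by
        calc w c = w ((u + c) + -u) := by rw [← h3]
          _ ≤ w (u + c) + w (-u) := w.add_le _ _
          _ = w (u + c) + w u := by rw [w.map_neg]
      rw [← ht] at h4
      linarith
    have hxl := hlow X hcx
    have hyl := hlow Y hcy
    have hdiff : w (X - Y) ≤ 2 * B * t ^ (r * (m - 1) + 1) := by
      have h3 : X - Y = (X + c) + -(Y + c) := by ring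
      calc w (X - Y) = w ((X + c) + -(Y + c)) := by
            rw [← h3]
        _ ≤ w (X + c) + w (-(Y + c)) := w.add_le _ _
        _ = w (X + c) + w (Y + c) := by rw [w.map_neg]
        _ ≤ 2 * B * t ^ (r * (m - 1) + 1) := by linarith
    have hXY : X - Y ≠ 0 := by
      rw [hX, hY, ← mul_sub]
      exact mul_ne_zero hl0 (sub_ne_zero.2 hxy)
    have hdpos : 0 < w (X - Y) := w.pos hXY
    have hbv : β = w X * w Y / w (X - Y) ^ 2 := by
      have h1 : (x * y) ^ (r * m) / (x ^ (r * m) - y ^ (r * m)) ^ 2 = X * Y / (X - Y) ^ 2 := by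
        rw [div_eq_div_iff (pow_ne_zero 2 (sub_ne_zero.2 hxy)) (pow_ne_zero 2 hXY), hX, hY,
          mul_pow x y]
        ring
      rw [hβ, h1, map_div₀, map_mul, map_pow w (X - Y)]
    have hkey : t ^ (2 * (r - 1)) ≤ (4 * B) ^ 2 * β := by
      rw [hbv, ← mul_div_assoc, le_div_iff₀ (pow_pos hdpos 2)]
      have h5 : w (X - Y) ^ 2 ≤ (2 * B * t ^ (r * (m - 1) + 1)) ^ 2 :=
        pow_le_pow_left₀ hdpos.le hdiff 2
      have h6 : t ^ (r * m) / 2 * (t ^ (r * m) / 2) ≤ w X * w Y :=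
        mul_le_mul hxl hyl (by positivity) (w.nonneg _)
      calc t ^ (2 * (r - 1)) * w (X - Y) ^ 2
          ≤ t ^ (2 * (r - 1)) * (2 * B * t ^ (r * (m - 1) + 1)) ^ 2 :=
            mul_le_mul_of_nonneg_left h5 (pow_nonneg ht0 _)
        _ = (4 * B) ^ 2 * (t ^ (r * m) / 2 * (t ^ (r * m) / 2)) := by
            rw [htD, mul_comm 2 (r - 1), pow_mul]
            ring
        _ ≤ (4 * B) ^ 2 * (w X * w Y) :=
            mul_le_mul_of_nonneg_left h6 (by positivity)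
    have hb0 : 0 ≤ β := by rw [hβ]; exact w.nonneg _
    have hwc1 : 1 ≤ w c := by
      rw [← ht]
      exact one_le_pow₀ ht1
    rw [max_eq_left hwc1, ← ht]
    calc t ^ (r * m) ≤ t ^ (2 * (r - 1) * m) := by
          apply pow_le_pow_right₀ ht1
          exact Nat.mul_le_mul_right _ (by omega)
      _ = (t ^ (2 * (r - 1))) ^ m := pow_mul _ _ _
      _ ≤ ((4 * B) ^ 2 * β) ^ m := pow_le_pow_left₀ (pow_nonneg ht0 _) hkey _
      _ = (4 * B) ^ (2 * m) * β ^ m := by rw [mul_pow, ← pow_mul]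
      _ ≤ (4 * B) ^ (2 * (r * m)) * max β 1 ^ m := by
          apply mul_le_mul _ _ (pow_nonneg hb0 _) (pow_nonneg (by linarith) _)
          · apply pow_le_pow_right₀ (by linarith)
            exact Nat.mul_le_mul_left _ (Nat.le_mul_of_pos_left _ (by omega))
          · exact pow_le_pow_left₀ hb0 (le_max_left _ _) _

end UBQS
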