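import Pool.Agent.UBQ.ValExt
import Pool.Agent.UBQ.Ht2
import Pool.Agent.UBQS.Pair
import Pool.Agent.UBQS.LocHt2
import Pool.Agent.UBQS.LocHt3
import Pool.Agent.UBC.LocGlob

/-!
# Heights of pairs, lower bound
-/

set_option autoImplicit false

universe u

namespace UBQS

open Height NumberField Polynomial UBC UBQ

namespace Ht2Aux

open AdmissibleAbsValues UBC.SeqListAux

/-- size of the coefficients -/
noncomputable def Av {L : Type*} [Field L] (T : Finset L[X]) (v : AbsoluteValue L ℝ) : ℝ :=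
  1 + ∑ H ∈ T, (∑ i ∈ H.support, v (H.coeff i) + v (H.leadingCoeff)⁻¹)

/-- the good places -/
def GoodT {L : Type*} [Field L] [AdmissibleAbsValues L] (T : Finset L[X])
    (v : AbsoluteValue L ℝ) : Prop :=
  v ∈ nonarchAbsVal (K := L) ∧ ∀ H ∈ T, (∀ i, v (H.coeff i) ≤ 1) ∧ v (H.leadingCoeff)⁻¹ ≤ 1

/-- the constant at a place -/
noncomputable def Bc {L : Type*} [Field L] [AdmissibleAbsValues L] (r m : ℕ) (T : Finset L[X])
    (v : AbsoluteValue L ℝ) : ℝ :=
  open Classical in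
  if GoodT T v then 1 else
    (4 * ((m * Av T v + 1) * (2 * Av T v) ^ (r * m))) ^ (2 * (r * m))

theorem term_nonneg {L : Type*} [Field L] (H : L[X]) (v : AbsoluteValue L ℝ) :
    0 ≤ ∑ i ∈ H.support, v (H.coeff i) + v (H.leadingCoeff)⁻¹ :=
  add_nonneg (Finset.sum_nonneg fun _ _ => v.nonneg _) (v.nonneg _)

theorem Av_one {L : Type*} [Field L] (T : Finset L[X]) (v : AbsoluteValue L ℝ) :
    1 ≤ Av T v := by
  have : 0 ≤ ∑ H ∈ T, (∑ i ∈ H.support, v (H.coeff i) + v (H.leadingCoeff)⁻¹) :=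
    Finset.sum_nonneg fun H _ => term_nonneg H v
  unfold Av
  linarith

theorem term_le {L : Type*} [Field L] {T : Finset L[X]} {H : L[X]} (hH : H ∈ T)
    (v : AbsoluteValue L ℝ) :
    1 + (∑ i ∈ H.support, v (H.coeff i) + v (H.leadingCoeff)⁻¹) ≤ Av T v := by
  have := Finset.single_le_sum
    (f := fun H : L[X] => ∑ i ∈ H.support, v (H.coeff i) + v (H.leadingCoeff)⁻¹)
    (fun H _ => term_nonneg H v) hH
  unfold Av
  linarith

theorem coef_le {L : Type*} [Field L] {T : Finset L[X]} {H : L[X]} (hH : H ∈ T)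
    (v : AbsoluteValue L ℝ) (i : ℕ) : v (H.coeff i) ≤ Av T v := by
  have h1 := UBQ.Ht2Aux.coef_le H v i
  have h2 := term_le hH v
  have h3 : 0 ≤ v (H.leadingCoeff)⁻¹ := v.nonneg _
  linarith

theorem lead_le {L : Type*} [Field L] {T : Finset L[X]} {H : L[X]} (hH : H ∈ T)
    (v : AbsoluteValue L ℝ) : v (H.leadingCoeff)⁻¹ ≤ Av T v := by
  have h2 := term_le hH v
  have h3 : 0 ≤ ∑ i ∈ H.support, v (H.coeff i) := Finset.sum_nonneg fun _ _ => v.nonneg _
  linarith

theorem Bc_ok {L : Type*} [Field L] [AdmissibleAbsValues L] (r m : ℕ) (T : Finset L[X]) :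
    Ok L (Bc r m T) := by
  classical
  constructor
  · intro v
    unfold Bc
    split_ifs with h
    · exact le_rfl
    · have hA := Av_one T v
      have h1 : (1 : ℝ) ≤ (2 * Av T v) ^ (r * m) := one_le_pow₀ (by linarith)
      have h2 : (0 : ℝ) ≤ m := Nat.cast_nonneg m
      have h3 : (1 : ℝ) ≤ m * Av T v + 1 := by
        have : 0 ≤ (m : ℝ) * Av T v := by positivity
        linarith
      apply one_le_pow₀
      nlinarith [mul_le_mul h3 h1 (by norm_num) (by linarith)]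
  · have hfin : (⋃ H ∈ T, ((⋃ i ∈ H.support, {v : AbsoluteValue L ℝ |
        v ∈ nonarchAbsVal (K := L) ∧ ¬ v (H.coeff i) ≤ 1}) ∪ {v : AbsoluteValue L ℝ |
        v ∈ nonarchAbsVal (K := L) ∧ ¬ v (H.leadingCoeff)⁻¹ ≤ 1})).Finite :=
      Set.Finite.biUnion T.finite_toSet fun H _ => Set.Finite.union
        (Set.Finite.biUnion H.support.finite_toSet fun i _ => UBQ.Ht2Aux.finite_bad L _)
        (UBQ.Ht2Aux.finite_bad L _)
    refine Set.Finite.subset hfin ?_
    rintro v ⟨hv1, hv2⟩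
    have hv3 : ¬ ∀ H ∈ T, (∀ i, v (H.coeff i) ≤ 1) ∧ v (H.leadingCoeff)⁻¹ ≤ 1 := by
      intro hcon
      exact hv2 (if_pos ⟨hv1, hcon⟩)
    push Not at hv3
    obtain ⟨H, hHT, hH⟩ := hv3
    refine Set.mem_biUnion hHT ?_
    by_cases hc : ∀ i, v (H.coeff i) ≤ 1
    · exact Or.inr ⟨hv1, not_le.2 (hH hc)⟩
    · left
      obtain ⟨i, hi⟩ := not_forall.1 hc
      have his : i ∈ H.support := by
        rw [mem_support_iff]
        intro h0
        apply hi
        rw [h0, map_zero]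
        exact zero_le_one
      exact Set.mem_biUnion his ⟨hv1, hi⟩

/-- the local estimate -/
theorem local_est (L : Type u) [Field L] [NumberField L] {r m : ℕ} (hr : 2 ≤ r) (hm : 1 ≤ m)
    {T : Finset L[X]} (hT : ∀ H ∈ T, H.natDegree = m) {l : List L[X]} (hl : InT T l)
    {c s p : L} (h : QPair r l c s p)
    (hp : p ≠ 0) (hP : (dickson 1 (1 : L) (r * m) - C 2).eval (s ^ 2 / p - 2) ≠ 0)
    (v : AbsoluteValue L ℝ) (hv : IsPl L v) :
    max (v c) 1 ≤ Bc r m T v *
      max (v ((dickson 1 (1 : L) (r * m) - C 2).eval (s ^ 2 / p - 2))⁻¹) 1 ^ m := by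
  classical
  obtain ⟨M, _, _, _, x, y, hxy, hx, hy, hs, hpp⟩ := h.field
  have hp' : algebraMap L M p ≠ 0 := by
    rw [Ne, map_eq_zero]
    exact hp
  have hx0 : x ≠ 0 := by
    rintro rfl
    rw [zero_mul] at hpp
    exact hp' hpp.symm
  have hy0 : y ≠ 0 := by
    rintro rfl
    rw [mul_zero] at hpp
    exact hp' hpp.symm
  have hval : algebraMap L M (((dickson 1 (1 : L) (r * m) - C 2).eval (s ^ 2 / p - 2))⁻¹) =
      (x * y) ^ (r * m) / (x ^ (r * m) - y ^ (r * m)) ^ 2 := by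
    rw [map_inv₀, UBQ.Ht2Aux.dickson_map, map_sub, map_div₀, map_pow, ← hs, ← hpp, map_ofNat]
    exact UBQ.Ht2Aux.dickson_val hx0 hy0
  have hne : x ^ (r * m) ≠ y ^ (r * m) := by
    intro he
    rw [he, sub_self, zero_pow two_ne_zero, div_zero, map_eq_zero, inv_eq_zero] at hval
    exact hP hval
  -- the list over `M`
  obtain ⟨l', hl'⟩ : ∃ l' : List M[X], l' = l.map (Polynomial.map (algebraMap L M)) := ⟨_, rfl⟩
  rw [← hl'] at hx hy
  have hl'0 : l' ≠ [] := by
    rw [hl']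
    intro h0
    exact hl.1 (List.map_eq_nil_iff.1 h0)
  have hpos : 0 < l'.length := List.length_pos_iff.2 hl'0
  obtain ⟨k, hk, hper⟩ := common_period (g := compF r (algebraMap L M c) l') {x, y} (by
    intro z hz
    rw [Finset.mem_insert, Finset.mem_singleton] at hz
    rcases hz with rfl | rfl
    · exact hx
    · exact hy)
  have hper' : ∀ z ∈ ({x, y} : Finset M), ∀ i,
      sq r (algebraMap L M c) l' z (i + l'.length * k) = sq r (algebraMap L M c) l' z i := by
    intro z hz i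
    rw [sq_add_mul, hper z hz]
  have hmem : ∀ i, ∃ H ∈ T, Hs l' i = H.map (algebraMap L M) := by
    intro i
    have h1 := Hs_mem hl'0 i
    rw [hl', List.mem_map] at h1
    obtain ⟨H, hH1, hH2⟩ := h1
    exact ⟨H, hl.2 H hH1, by rw [hl']; exact hH2.symm⟩
  have hdeg' : ∀ i, (Hs l' i).natDegree = m := by
    intro i
    obtain ⟨H, hH, he⟩ := hmem i
    rw [he, natDegree_map, hT H hH]
  by_cases hg : GoodT T v
  · have hB : Bc r m T v = 1 := if_pos hg
    obtain ⟨w, hw1, hw2⟩ := exists_abv_ext_nonarch L M v hg.1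
    have hc : ∀ i j, w ((Hs l' i).coeff j) ≤ 1 := by
      intro i j
      obtain ⟨H, hH, he⟩ := hmem i
      rw [he, coeff_map, hw2]
      exact (hg.2 H hH).1 j
    have hlc : ∀ i, w (Hs l' i).leadingCoeff⁻¹ ≤ 1 := by
      intro i
      obtain ⟨H, hH, he⟩ := hmem i
      rw [he, leadingCoeff_map, ← map_inv₀, hw2]
      exact (hg.2 H hH).2
    have h1 := near_nonarch w hw1 hr hm (H := Hs l') hdeg' le_rfl hc hlc
      (c := algebraMap L M c) (a := sq r (algebraMap L M c) l' x)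
      (b := sq r (algebraMap L M c) l' y) (fun i => sq_succ _ _ _ _ _)
      (fun i => sq_succ _ _ _ _ _) (Nat.mul_pos hpos hk) (hper' x (by simp))
      (hper' y (by simp)) hne
    rw [sq_zero, sq_zero, ← hval, hw2, hw2, one_pow, one_mul] at h1
    rw [hB, one_mul]
    exact h1
  · have hB : Bc r m T v =
        (4 * ((m * Av T v + 1) * (2 * Av T v) ^ (r * m))) ^ (2 * (r * m)) := if_neg hg
    obtain ⟨w, hw2⟩ : ∃ w : AbsoluteValue M ℝ, ∀ a : L, w (algebraMap L M a) = v a := by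
      rcases hv with hv | hv
      · exact exists_abv_ext_arch L M v hv
      · obtain ⟨w, _, hw2⟩ := exists_abv_ext_nonarch L M v hv
        exact ⟨w, hw2⟩
    have hc : ∀ i j, w ((Hs l' i).coeff j) ≤ Av T v := by
      intro i j
      obtain ⟨H, hH, he⟩ := hmem i
      rw [he, coeff_map, hw2]
      exact coef_le hH v j
    have hlc : ∀ i, w (Hs l' i).leadingCoeff⁻¹ ≤ Av T v := by
      intro i
      obtain ⟨H, hH, he⟩ := hmem i
      rw [he, leadingCoeff_map, ← map_inv₀, hw2]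
      exact lead_le hH v
    have h1 := near_any w hr hm (H := Hs l') hdeg' (Av_one T v) hc hlc
      (c := algebraMap L M c) (a := sq r (algebraMap L M c) l' x)
      (b := sq r (algebraMap L M c) l' y) (fun i => sq_succ _ _ _ _ _)
      (fun i => sq_succ _ _ _ _ _) (Nat.mul_pos hpos hk) (hper' x (by simp))
      (hper' y (by simp)) hne
    rw [sq_zero, sq_zero, ← hval, hw2, hw2] at h1
    rw [hB]
    exact h1

end Ht2Aux

open Ht2Aux in
/-- R9.  Adapt UBQ/Ht2.lean: `A v` = maximum of 1 and all `v (H.coeff i)`, `v (H.leadingCoeff)⁻¹`,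
`H ∈ T`.  For a list `l` over `M` use the orbit `UBC.SeqListAux.sq r c l x` and `Hs l`
(UBC/SeqList.lean). -/
theorem ht_lower (L : Type u) [Field L] [NumberField L] {r m : ℕ} (hr : 2 ≤ r) (hm : 1 ≤ m)
    (T : Finset L[X]) (hT : ∀ H ∈ T, H.natDegree = m) :
    ∃ (a C : ℝ) (F : Finset L), 0 < a ∧ ∀ (l : List L[X]) (c s p : L), InT T l →
      QPair r l c s p → p ≠ 0 →
      s ^ 2 / p - 2 ∉ F → a * logHeight₁ c ≤ logHeight₁ (s ^ 2 / p - 2) + C := by
  classical
  obtain ⟨P, hPd⟩ : ∃ P : L[X], P = dickson 1 (1 : L) (r * m) - C 2 := ⟨_, rfl⟩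
  have hP0 : P ≠ 0 := by
    rw [hPd]
    exact UBQ.Ht2Aux.dickson_ne L (by positivity)
  obtain ⟨C1, C2, hC1, hC⟩ := UBQ.Ht2Aux.eval_le L P
  obtain ⟨C3, hC3⟩ := height_le_of_local L (Bc r m T) (Bc_ok r m T)
  have hm' : (0 : ℝ) < m := by exact_mod_cast hm
  have hK : 0 < (m : ℝ) * C1 + 1 := by positivity
  refine ⟨(m * C1 + 1)⁻¹, (m * C1 + 1)⁻¹ * (m * C2 + C3), P.roots.toFinset,
    inv_pos.2 hK, ?_⟩
  intro l c s p hl hq hp hF
  have hPτ : P.eval (s ^ 2 / p - 2) ≠ 0 := by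
    intro h0
    apply hF
    rw [Multiset.mem_toFinset, mem_roots hP0]
    exact h0
  have hPτ' := hPτ
  rw [hPd] at hPτ'
  have h1 := hC3 Unit c (fun _ => (P.eval (s ^ 2 / p - 2))⁻¹) m (by
    intro v hv
    rw [Fintype.prod_unique, hPd]
    exact local_est L hr hm hT hl hq hp hPτ' v hv)
  rw [Fintype.sum_unique, logHeight₁_inv] at h1
  have h2 := hC (s ^ 2 / p - 2)
  have h3 : 0 ≤ logHeight₁ (s ^ 2 / p - 2) := zero_le_logHeight₁ _
  have h4 : logHeight₁ c ≤ (m * C1 + 1) * logHeight₁ (s ^ 2 / p - 2) + (m * C2 + C3) := by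
    have := mul_le_mul_of_nonneg_left h2 hm'.le
    linarith
  have h5 := mul_le_mul_of_nonneg_left h4 (inv_pos.2 hK).le
  rw [mul_add, ← mul_assoc, inv_mul_cancel₀ hK.ne', one_mul] at h5
  exact h5

end UBQS
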