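import Pool.Agent.UBQS.Defs
import Pool.Agent.UBQ.Local

/-!
# Valuations of the linear forms at periodic points of compositions
-/

set_option autoImplicit false

namespace UBQS

open WithZero Polynomial UBC

namespace LocalAux

open SeqListAux

/-- two periodic points: a common period of the two orbits -/
lemma common2 {M : Type*} [Field M] {r : ℕ} {c : M} {l : List M[X]} (hl : l ≠ []) {x y : M}
    (hx : PerPt (compF r c l) x) (hy : PerPt (compF r c l) y) :
    ∃ L : ℕ, 0 < L ∧ (∀ i, sq r c l x (i + L) = sq r c l x i) ∧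
      ∀ i, sq r c l y (i + L) = sq r c l y i := by
  classical
  have hpos : 0 < l.length := List.length_pos_iff.2 hl
  obtain ⟨k, hk, h⟩ := common_period (g := compF r c l) {x, y} (by
    intro z hz
    rw [Finset.mem_insert, Finset.mem_singleton] at hz
    rcases hz with rfl | rfl
    · exact hx
    · exact hy)
  refine ⟨l.length * k, Nat.mul_pos hpos hk, fun i => ?_, fun i => ?_⟩
  · rw [sq_add_mul, h x (by simp)]
  · rw [sq_add_mul, h y (by simp)]

end LocalAux

open LocalAux SeqListAux LocSeqAux in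
/-- R2a. places where `c` is integral: `UBC.LocSeqAux.seq_good` for the orbits
`UBC.SeqListAux.sq r c l x`, `sq r c l y` (see the proof of `UBC.val_forms_list` in
UBC/SeqList.lean) -/
theorem forms_good {M : Type*} [Field M] (w : Valuation M ℤᵐ⁰) {r m : ℕ} (hr : 2 ≤ r)
    (hm : 1 ≤ m) {ζ0 : M} (hζ0 : IsPrimitiveRoot ζ0 r) {l : List M[X]} (hl : l ≠ [])
    (hgood : GoodList w m l) {c : M} (hc : w c ≤ 1) {x y : M} (hx : PerPt (compF r c l) x)
    (hy : PerPt (compF r c l) y) (hxy : x ≠ y) {ζ : M} (hζ : ζ ^ r = 1) (hζ1 : ζ ≠ 1) :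
    w (x - ζ * y) = 1 := by
  obtain ⟨L, hL, hxL, hyL⟩ := common2 hl hx hy
  exact seq_good w hr hm hζ0 (H := Hs l) (fun i => (hgood _ (Hs_mem hl i)).2.2)
    (fun i => (hgood _ (Hs_mem hl i)).1) (fun i => (hgood _ (Hs_mem hl i)).2.1)
    (a := sq r c l x) (b := sq r c l y) (fun i => sq_succ r c l x i)
    (fun i => sq_succ r c l y i) hL hxL hyL hxy hc hζ hζ1

open LocalAux SeqListAux LocSeqAux in
/-- R2b. places where `c` is not integral: `UBC.LocSeqAux.seq_pow`, `UBC.LocSeqAux.seq_bad` with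
`γ = w x` -/
theorem forms_bad {M : Type*} [Field M] (w : Valuation M ℤᵐ⁰) {r m : ℕ} (hr : 2 ≤ r)
    (hm : 1 ≤ m) (hw : w ((r * m : ℕ) : M) = 1) {l : List M[X]} (hl : l ≠ [])
    (hgood : GoodList w m l) {c : M} (hc : 1 < w c) {x y : M} (hx : PerPt (compF r c l) x)
    (hy : PerPt (compF r c l) y) (hxy : x ≠ y) :
    w x ≠ 0 ∧ w x ^ (r * m) = w c ∧ w y = w x ∧ ∀ ζ : M, ζ ^ r = 1 →
      ∃ e : ℕ, (w x ^ (r * m - 1)) ^ e * w (x - ζ * y) = w x := by
  obtain ⟨L, hL, hxL, hyL⟩ := common2 hl hx hy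
  have hlead : ∀ i, w (Hs l i).leadingCoeff = 1 := fun i => (hgood _ (Hs_mem hl i)).2.2
  have hdeg : ∀ i, (Hs l i).natDegree = m := fun i => (hgood _ (Hs_mem hl i)).1
  have hint : ∀ i j, w ((Hs l i).coeff j) ≤ 1 := fun i => (hgood _ (Hs_mem hl i)).2.1
  have hrm : 2 ≤ r * m := by nlinarith
  have h1 : w x ^ (r * m) = w c :=
    seq_pow w hr hm hlead hdeg hint (a := sq r c l x) (fun i => sq_succ r c l x i) hL hxL hc 0
  have h2 : w y ^ (r * m) = w c :=
    seq_pow w hr hm hlead hdeg hint (a := sq r c l y) (fun i => sq_succ r c l y i) hL hyL hc 0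
  have h3 : w y = w x := by
    rw [← h1] at h2
    exact (pow_left_inj₀ zero_le zero_le (by omega)).1 h2
  have h4 : w x ≠ 0 := by
    intro h0
    rw [h0, zero_pow (by omega)] at h1
    rw [← h1] at hc
    exact absurd hc (by simp)
  refine ⟨h4, h1, h3, fun ζ hζ => ?_⟩
  exact seq_bad w hr hm hw hlead hdeg hint (a := sq r c l x) (b := sq r c l y)
    (fun i => sq_succ r c l x i) (fun i => sq_succ r c l y i) hL hxL hyL hxy hc hζ h1

end UBQS
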