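import Pool.Agent.UBQS.Tau
import Pool.Agent.UBQS.Sel2
import Pool.Agent.UBC.FinalSeq
import Pool.Agent.UBC.Metric

/-!
# A bounded number of pairs
-/

set_option autoImplicit false

universe u

namespace UBQS

open Height NumberField IsDedekindDomain Polynomial UBC UBQ

namespace PairsAux

theorem iter_map {K E : Type*} [Field K] [Field E] [Algebra K E] (r : ℕ) (l : List K[X]) (c z : K)
    (k : ℕ) : (compF r (algebraMap K E c) (l.map (Polynomial.map (algebraMap K E))))^[k]
      (algebraMap K E z) = algebraMap K E ((compF r c l)^[k] z) := by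
  induction k generalizing z with
  | zero => rfl
  | succ k ih => rw [Function.iterate_succ_apply, Function.iterate_succ_apply, ← compF_map, ih]

theorem per_of_map {K E : Type*} [Field K] [Field E] [Algebra K E] {r : ℕ} {l : List K[X]} {c z : K}
    (h : PerPt (compF r (algebraMap K E c) (l.map (Polynomial.map (algebraMap K E))))
      (algebraMap K E z)) :
    PerPt (compF r c l) z := by
  obtain ⟨k, hk, hz⟩ := h
  rw [iter_map] at hz
  exact ⟨k, hk, (algebraMap K E).injective hz⟩

theorem per_of_zero {K : Type*} [Field K] {r : ℕ} {l : List K[X]} {c s : K}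
    (h : UBQS.QPair r l c s 0) : PerPt (compF r c l) s := by
  obtain ⟨x, y, -, hx, hy, hs, hp⟩ := h
  rw [map_zero, mul_eq_zero] at hp
  rcases hp with h0 | h0
  · rw [h0, zero_add] at hs
    rw [hs] at hy
    exact per_of_map hy
  · rw [h0, add_zero] at hs
    rw [hs] at hx
    exact per_of_map hx

end PairsAux

open PairsAux

/-- R11.  Adapt UBQ/Pairs.lean: pairs with `p = 0` by `UBC.seq_root4` (UBC/FinalSeq.lean, with
`S = badPl r m T`), the others by `tau_bound`, `key_sel`, `key_inj`, `metric_bound`. -/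
theorem pairs_root (K : Type u) [Field K] [NumberField K] {r m : ℕ} (hr : 6 ≤ r) (hm : 1 ≤ m)
    {ζ0 : K} (hζ0 : IsPrimitiveRoot ζ0 r) (T : Finset K[X]) (hT : ∀ H ∈ T, H.natDegree = m) :
    ∃ B : ℕ, ∀ (c : K) (l : List K[X]), InT T l → ∀ P : Finset (K × K),
      (∀ q ∈ P, QPair r l c q.1 q.2) → P.card ≤ B := by
  classical
  have hrm : 6 ≤ r * m := by nlinarith
  have hcov : Cov r (r * m - 1) := ⟨by omega, Or.inl (by omega)⟩
  have hS : (badPl r m T).Finite := badPl_finite (by omega) (by omega) T hT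
  have hval : ∀ v : HeightOneSpectrum (𝓞 K), v ∉ badPl r m T →
      v.valuation K ((r * m : ℕ) : K) = 1 ∧ ∀ H ∈ T, (∀ i, v.valuation K (H.coeff i) ≤ 1) ∧
        v.valuation K H.leadingCoeff = 1 := by
    intro v hv
    unfold badPl at hv
    simp only [Set.mem_ofPred_eq, not_or, not_not, not_exists, not_lt, not_and] at hv
    exact hv
  obtain ⟨B0, hB0⟩ := seq_root4 K hm hcov hζ0 (badPl r m T) hS fun v hv => (hval v hv).1
  obtain ⟨N, hN⟩ := tau_bound K hr hm hζ0 T hT
  obtain ⟨L, i1, i2, i3, hgap⟩ := exists_gap_roots K hcov hζ0 (badPl r m T) hS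
  obtain ⟨B1, hB1⟩ := metric_bound K L _ hgap
  refine ⟨B0 + B1 * N, fun c l hl P hP => ?_⟩
  have hsplit : P.card = (P.filter fun q => q.2 = 0).card + (P.filter fun q => ¬ q.2 = 0).card :=
    (Finset.card_filter_add_card_filter_not _).symm
  have h0 : (P.filter fun q => q.2 = 0).card ≤ B0 := by
    have hinj : Set.InjOn (Prod.fst : K × K → K)
        ((P.filter fun q => q.2 = 0 : Finset (K × K)) : Set (K × K)) := by
      intro a ha b hb hab
      rw [Finset.mem_coe, Finset.mem_filter] at ha hb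
      exact Prod.ext hab (ha.2.trans hb.2.symm)
    rw [← Finset.card_image_of_injOn hinj]
    refine hB0 c l hl.1 (fun v hv H hH => ?_) _ fun x hx => ?_
    · have h := (hval v hv).2 H (hl.2 H hH)
      exact ⟨hT H (hl.2 H hH), h.1, h.2⟩
    · obtain ⟨q, hq, rfl⟩ := Finset.mem_image.1 hx
      rw [Finset.mem_filter] at hq
      have h := hP q hq.1
      rw [hq.2] at h
      exact per_of_zero h
  have h1 : (P.filter fun q => ¬ q.2 = 0).card ≤ B1 * N := by
    have h2 := Finset.card_le_mul_card_image (f := fun q : K × K => q.1 ^ 2 / q.2)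
      (P.filter fun q => ¬ q.2 = 0) B1 ?_
    · refine h2.trans (Nat.mul_le_mul_left B1 (hN c l hl _ fun t ht => ?_))
      obtain ⟨q, hq, rfl⟩ := Finset.mem_image.1 ht
      rw [Finset.mem_filter] at hq
      exact ⟨q.1, q.2, hP q hq.1, hq.2, rfl⟩
    · intro t _
      set Q := (P.filter fun q => ¬ q.2 = 0).filter (fun q => q.1 ^ 2 / q.2 = t) with hQ
      have hmem : ∀ q ∈ Q, q ∈ P ∧ q.2 ≠ 0 ∧ q.1 ^ 2 / q.2 = t := by
        intro q hq
        rw [hQ, Finset.mem_filter, Finset.mem_filter] at hq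
        exact ⟨hq.1.1, hq.1.2, hq.2⟩
      have hinj : Set.InjOn (fun q : K × K => key q.1 q.2) (Q : Set (K × K)) := by
        intro a ha b hb hab
        obtain ⟨-, ha2, ha3⟩ := hmem a (Finset.mem_coe.1 ha)
        obtain ⟨-, hb2, hb3⟩ := hmem b (Finset.mem_coe.1 hb)
        obtain ⟨e1, e2⟩ := key_inj ha2 hb2 (ha3.trans hb3.symm) hab
        exact Prod.ext e1 e2
      rw [← Finset.card_image_of_injOn hinj]
      refine hB1 _ ?_ ?_
      · intro x hx
        obtain ⟨q, hq, rfl⟩ := Finset.mem_image.1 hx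
        exact key_ne (hmem q hq).2.1
      · intro x hx y hy hxy
        obtain ⟨q, hq, rfl⟩ := Finset.mem_image.1 hx
        obtain ⟨q', hq', rfl⟩ := Finset.mem_image.1 hy
        obtain ⟨h3, h4, h5⟩ := hmem q hq
        obtain ⟨h3', h4', h5'⟩ := hmem q' hq'
        exact key_sel (by omega) hm hζ0 hT hl (hP q' h3') (hP q h3) h4' h4
          (h5'.trans h5.symm) hxy
  omega

end UBQS
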