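import Pool.Agent.UBQ.ValExt
import Pool.Agent.UBQS.Pair
import Pool.Agent.UBQS.Local
import Pool.Agent.UBC.SelExt

/-!
# Selmer condition for the ratio of the two points of a pair
-/

set_option autoImplicit false

universe u

namespace UBQS

open NumberField IsDedekindDomain Polynomial UBC UBQ

/-- R3a. -/
theorem badPl_finite {K : Type*} [Field K] [NumberField K] {r m : ℕ} (hr : r ≠ 0) (hm : m ≠ 0)
    (T : Finset K[X]) (hT : ∀ H ∈ T, H.natDegree = m) : (badPl r m T).Finite := by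
  have h1 : {v : HeightOneSpectrum (𝓞 K) | v.valuation K ((r * m : ℕ) : K) ≠ 1}.Finite :=
    finite_nonunit K _ (by exact_mod_cast Nat.mul_ne_zero hr hm)
  have h2 : (⋃ H ∈ T, ⋃ i ∈ H.support,
      {v : HeightOneSpectrum (𝓞 K) | v.valuation K (H.coeff i) ≠ 1}).Finite := by
    refine Set.Finite.biUnion T.finite_toSet fun H _ => ?_
    refine Set.Finite.biUnion H.support.finite_toSet fun i hi => ?_
    exact finite_nonunit K _ (mem_support_iff.1 hi)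
  refine (h1.union h2).subset ?_
  rintro v (hv | ⟨H, hH, ⟨i, hi⟩ | hi⟩)
  · exact Or.inl hv
  · refine Or.inr (Set.mem_biUnion (x := H) hH (Set.mem_biUnion (x := i) ?_ ?_))
    · rw [Finset.mem_coe, mem_support_iff]
      intro h0
      rw [h0, map_zero] at hi
      exact absurd hi (by simp)
    · exact hi.ne'
  · refine Or.inr (Set.mem_biUnion (x := H) hH (Set.mem_biUnion (x := H.natDegree) ?_ ?_))
    · rw [Finset.mem_coe, mem_support_iff]
      intro h0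
      have h3 : H = 0 := leadingCoeff_eq_zero.1 h0
      exact hm (by rw [← hT H hH, h3, natDegree_zero])
    · exact hi

namespace Sel1Aux

theorem ext_data {K M : Type*} [Field K] [NumberField K] [Field M] [NumberField M] [Algebra K M]
    {r m : ℕ} {T : Finset K[X]} (hT : ∀ H ∈ T, H.natDegree = m) {l : List K[X]} (hl : InT T l)
    {v : HeightOneSpectrum (𝓞 K)} (hv : v ∉ badPl r m T)
    {w : Valuation M (WithZero (Multiplicative ℤ))} {e : ℕ}
    (hvw : ∀ a : K, w (algebraMap K M a) = v.valuation K a ^ e) :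
    w ((r * m : ℕ) : M) = 1 ∧ l.map (Polynomial.map (algebraMap K M)) ≠ [] ∧
      GoodList w m (l.map (Polynomial.map (algebraMap K M))) := by
  unfold badPl at hv
  rw [Set.mem_ofPred_eq] at hv
  push Not at hv
  obtain ⟨h1, h2⟩ := hv
  refine ⟨?_, ?_, ?_⟩
  · have := hvw ((r * m : ℕ) : K)
    rw [map_natCast, h1, one_pow] at this
    exact this
  · intro h0
    exact hl.1 (List.map_eq_nil_iff.1 h0)
  · intro H' hH'
    obtain ⟨H, hH, rfl⟩ := List.mem_map.1 hH'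
    have hHT := hl.2 H hH
    refine ⟨by rw [natDegree_map, hT H hHT], fun i => ?_, ?_⟩
    · rw [coeff_map, hvw]
      exact pow_le_one₀ zero_le ((h2 H hHT).1 i)
    · rw [leadingCoeff_map, hvw, (h2 H hHT).2, one_pow]

end Sel1Aux

open Sel1Aux

/-- R3b. -/
theorem ratio {K M : Type*} [Field K] [NumberField K] [Field M] [NumberField M] [Algebra K M]
    {r m : ℕ} (hr : 2 ≤ r) (hm : 1 ≤ m) {ζ0 : K} (hζ0 : IsPrimitiveRoot ζ0 r) {T : Finset K[X]}
    (hT : ∀ H ∈ T, H.natDegree = m) {l : List K[X]} (hl : InT T l) {c u : K} (hu : u ≠ 0)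
    {v : HeightOneSpectrum (𝓞 K)} (hv : v ∉ badPl r m T)
    {x1 x2 x3 x4 y1 y2 y3 y4 : M}
    (hx1 : PerPt (compF r (algebraMap K M c) (l.map (Polynomial.map (algebraMap K M)))) x1)
    (hx2 : PerPt (compF r (algebraMap K M c) (l.map (Polynomial.map (algebraMap K M)))) x2)
    (hx3 : PerPt (compF r (algebraMap K M c) (l.map (Polynomial.map (algebraMap K M)))) x3)
    (hx4 : PerPt (compF r (algebraMap K M c) (l.map (Polynomial.map (algebraMap K M)))) x4)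
    (hy1 : PerPt (compF r (algebraMap K M c) (l.map (Polynomial.map (algebraMap K M)))) y1)
    (hy2 : PerPt (compF r (algebraMap K M c) (l.map (Polynomial.map (algebraMap K M)))) y2)
    (hy3 : PerPt (compF r (algebraMap K M c) (l.map (Polynomial.map (algebraMap K M)))) y3)
    (hy4 : PerPt (compF r (algebraMap K M c) (l.map (Polynomial.map (algebraMap K M)))) y4)
    (h1 : x1 ≠ y1) (h2 : x2 ≠ y2) (h3 : x3 ≠ y3) (h4 : x4 ≠ y4)
    {ζ1 ζ2 ζ3 ζ4 : M} (e1 : ζ1 ^ r = 1) (e2 : ζ2 ^ r = 1) (e3 : ζ3 ^ r = 1) (e4 : ζ4 ^ r = 1)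
    (n1 : ζ1 ≠ 1) (n2 : ζ2 ≠ 1) (n3 : ζ3 ≠ 1) (n4 : ζ4 ≠ 1)
    (hueq : algebraMap K M u =
      ((x1 - ζ1 * y1) * (x2 - ζ2 * y2)) / ((x3 - ζ3 * y3) * (x4 - ζ4 * y4))) :
    ∃ δ : WithZero (Multiplicative ℤ), v.valuation K u = δ ^ (r * m - 1) := by
  obtain ⟨w, e, he, hvw⟩ := exists_val_ext K M v
  obtain ⟨hw, hne, hgood⟩ := ext_data (M := M) hT hl hv hvw
  have hζ0' : IsPrimitiveRoot (algebraMap K M ζ0) r :=
    hζ0.map_of_injective (algebraMap K M).injective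
  have hrm : r * m - 1 + 1 = r * m := Nat.sub_add_cancel (Nat.mul_pos (by omega) (by omega))
  have hu' := hvw u
  rcases le_or_gt (w (algebraMap K M c)) 1 with hc | hc
  · refine ⟨1, ?_⟩
    rw [hueq, map_div₀, map_mul, map_mul,
      forms_good w hr hm hζ0' hne hgood hc hx1 hy1 h1 e1 n1,
      forms_good w hr hm hζ0' hne hgood hc hx2 hy2 h2 e2 n2,
      forms_good w hr hm hζ0' hne hgood hc hx3 hy3 h3 e3 n3,
      forms_good w hr hm hζ0' hne hgood hc hx4 hy4 h4 e4 n4, one_mul, div_one] at hu'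
    rw [one_pow]
    exact (pow_eq_one_iff_of_nonneg zero_le he).1 hu'.symm
  · obtain ⟨a1, b1, c1, d1⟩ := forms_bad w hr hm hw hne hgood hc hx1 hy1 h1
    obtain ⟨a2, b2, c2, d2⟩ := forms_bad w hr hm hw hne hgood hc hx2 hy2 h2
    obtain ⟨a3, b3, c3, d3⟩ := forms_bad w hr hm hw hne hgood hc hx3 hy3 h3
    obtain ⟨a4, b4, c4, d4⟩ := forms_bad w hr hm hw hne hgood hc hx4 hy4 h4
    have hinj : ∀ {a b : WithZero (Multiplicative ℤ)}, a ^ (r * m) = b ^ (r * m) → a = b := by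
      intro a b hab
      exact (pow_left_inj₀ zero_le zero_le (by omega)).1 hab
    have g2 : w x2 = w x1 := hinj (b2.trans b1.symm)
    have g3 : w x3 = w x1 := hinj (b3.trans b1.symm)
    have g4 : w x4 = w x1 := hinj (b4.trans b1.symm)
    obtain ⟨f1, k1⟩ := d1 ζ1 e1
    obtain ⟨f2, k2⟩ := d2 ζ2 e2
    obtain ⟨f3, k3⟩ := d3 ζ3 e3
    obtain ⟨f4, k4⟩ := d4 ζ4 e4
    rw [g2] at k2
    rw [g3] at k3
    rw [g4] at k4
    set γ := w x1 with hγ
    set n := r * m - 1 with hn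
    refine descent (v.valuation K) w he hvw (n := n) (c := c) hu (γ := γ) a1 (by rw [hrm, b1])
      (a := f1 + f2) (b := f3 + f4) ?_
    have z3 : w (x3 - ζ3 * y3) ≠ 0 :=
      (Valuation.ne_zero_iff w).2 (form_ne_list hne hx3 hy3 h3 e3)
    have z4 : w (x4 - ζ4 * y4) ≠ 0 :=
      (Valuation.ne_zero_iff w).2 (form_ne_list hne hx4 hy4 h4 e4)
    rw [hueq, map_div₀, map_mul, map_mul, ← mul_div_assoc, div_eq_iff (mul_ne_zero z3 z4)]
    calc (γ ^ n) ^ (f1 + f2) * (w (x1 - ζ1 * y1) * w (x2 - ζ2 * y2))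
        = ((γ ^ n) ^ f1 * w (x1 - ζ1 * y1)) * ((γ ^ n) ^ f2 * w (x2 - ζ2 * y2)) := by
          rw [pow_add]; exact mul_mul_mul_comm _ _ _ _
      _ = ((γ ^ n) ^ f3 * w (x3 - ζ3 * y3)) * ((γ ^ n) ^ f4 * w (x4 - ζ4 * y4)) := by
          rw [k1, k2, k3, k4]
      _ = (γ ^ n) ^ (f3 + f4) * (w (x3 - ζ3 * y3) * w (x4 - ζ4 * y4)) := by
          rw [pow_add]; exact mul_mul_mul_comm _ _ _ _

/-- R3c. With `x + y = s`, `x y = p` in a number field `M`:
`s ^ 2 / p - 2 - (ζ + ζ⁻¹) = (x - ζ y) (x - ζ⁻¹ y) / (x y)`. -/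
theorem tau_sel {K : Type u} [Field K] [NumberField K] {r m : ℕ} (hr : 2 ≤ r) (hm : 1 ≤ m)
    {ζ0 : K} (hζ0 : IsPrimitiveRoot ζ0 r) {T : Finset K[X]}
    (hT : ∀ H ∈ T, H.natDegree = m) {l : List K[X]} (hl : InT T l)
    {c s p : K} (h : QPair r l c s p) (hp : p ≠ 0) {ζ ζ' : K} (hζ : ζ ^ r = 1) (hζ1 : ζ ≠ 1)
    (hζ' : ζ' ^ r = 1) (hζ'1 : ζ' ≠ 1) :
    s ^ 2 / p - 2 ≠ ζ + ζ⁻¹ ∧
      Sel (r * m - 1) (badPl r m T)
        ((s ^ 2 / p - 2 - (ζ + ζ⁻¹)) / (s ^ 2 / p - 2 - (ζ' + ζ'⁻¹))) := by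
  obtain ⟨M, i1, i2, i3, x, y, hxy, hx, hy, hs, hpp⟩ := h.field
  have hne : l.map (Polynomial.map (algebraMap K M)) ≠ [] := by
    intro h0
    exact hl.1 (List.map_eq_nil_iff.1 h0)
  have hφ0 : ∀ a : K, algebraMap K M a = 0 ↔ a = 0 := fun a => by
    rw [FaithfulSMul.algebraMap_eq_zero_iff]
  have hxy0 : x * y ≠ 0 := by
    rw [hpp]
    exact (hφ0 p).not.2 hp
  have root : ∀ ξ : K, ξ ^ r = 1 → ξ ≠ 1 → ξ ≠ 0 ∧ (algebraMap K M ξ) ^ r = 1 ∧
      algebraMap K M ξ ≠ 1 ∧ (algebraMap K M ξ⁻¹) ^ r = 1 ∧ algebraMap K M ξ⁻¹ ≠ 1 := by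
    intro ξ h1 h2
    have h0 : ξ ≠ 0 := by
      rintro rfl
      rw [zero_pow (by omega)] at h1
      exact zero_ne_one h1
    refine ⟨h0, by rw [← map_pow, h1, map_one], fun h3 => h2 ?_, by
      rw [← map_pow, inv_pow, h1, inv_one, map_one], fun h3 => h2 ?_⟩
    · exact (algebraMap K M).injective (by rw [h3, map_one])
    · have h4 : ξ⁻¹ = 1 := (algebraMap K M).injective (by rw [h3, map_one])
      exact inv_eq_one.1 h4
  have key : ∀ ξ : K, ξ ≠ 0 → algebraMap K M (s ^ 2 / p - 2 - (ξ + ξ⁻¹)) =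
      (x - algebraMap K M ξ * y) * (x - algebraMap K M ξ⁻¹ * y) / (x * y) := by
    intro ξ hξ
    have hξ' : algebraMap K M ξ ≠ 0 := (hφ0 ξ).not.2 hξ
    have hx0 : x ≠ 0 := left_ne_zero_of_mul hxy0
    have hy0 : y ≠ 0 := right_ne_zero_of_mul hxy0
    rw [eq_div_iff hxy0, map_sub, map_sub, map_div₀, map_pow, map_add, ← hs, ← hpp, map_inv₀,
      map_ofNat]
    field_simp
    ring
  have nz : ∀ ξ : K, ξ ^ r = 1 → ξ ≠ 1 → s ^ 2 / p - 2 - (ξ + ξ⁻¹) ≠ 0 := by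
    intro ξ h1 h2 h3
    obtain ⟨a0, a1, a2, a3, a4⟩ := root ξ h1 h2
    have h4 := key ξ a0
    rw [h3, map_zero] at h4
    exact div_ne_zero (mul_ne_zero (form_ne_list hne hx hy hxy a1)
      (form_ne_list hne hx hy hxy a3)) hxy0 h4.symm
  refine ⟨sub_ne_zero.1 (nz ζ hζ hζ1), div_ne_zero (nz ζ hζ hζ1) (nz ζ' hζ' hζ'1), fun v hv => ?_⟩
  obtain ⟨a0, a1, a2, a3, a4⟩ := root ζ hζ hζ1
  obtain ⟨b0, b1, b2, b3, b4⟩ := root ζ' hζ' hζ'1
  refine ratio (M := M) hr hm hζ0 hT hl (c := c) (div_ne_zero (nz ζ hζ hζ1) (nz ζ' hζ' hζ'1)) hv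
    hx hx hx hx hy hy hy hy hxy hxy hxy hxy a1 a3 b1 b3 a2 a4 b2 b4 ?_
  rw [map_div₀, key ζ a0, key ζ' b0, div_div_div_cancel_right₀ hxy0]

end UBQS
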