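import Pool.Agent.UBQS.Ht1
import Pool.Agent.UBQS.Ht2
import Pool.Agent.UBQS.Sel1
import Pool.Agent.UBQ.Tau
import Pool.Agent.UBC.FinalPer

/-!
# A bounded number of values of `s ^ 2 / p`
-/

set_option autoImplicit false

universe u

namespace UBQS

open Height NumberField IsDedekindDomain Polynomial UBC UBQ

namespace TauAux

theorem inT_map {K L : Type*} [Field K] [Field L] [Algebra K L] [DecidableEq L[X]]
    {T : Finset K[X]} {l : List K[X]} (hl : InT T l) :
    InT (T.image (Polynomial.map (algebraMap K L))) (l.map (Polynomial.map (algebraMap K L))) := by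
  refine ⟨?_, fun H hH => ?_⟩
  · intro h0
    exact hl.1 (List.map_eq_nil_iff.1 h0)
  · obtain ⟨G, hG, rfl⟩ := List.mem_map.1 hH
    exact Finset.mem_image_of_mem _ (hl.2 G hG)

end TauAux

/-- R10.  Adapt UBQ/Tau.lean (over `L` use the finite set `T.image (Polynomial.map (algebraMap K L))`;
note that `B` must not depend on the list). -/
theorem tau_bound (K : Type u) [Field K] [NumberField K] {r m : ℕ} (hr : 6 ≤ r) (hm : 1 ≤ m)
    {ζ0 : K} (hζ0 : IsPrimitiveRoot ζ0 r) (T : Finset K[X]) (hT : ∀ H ∈ T, H.natDegree = m) :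
    ∃ N : ℕ, ∀ (c : K) (l : List K[X]), InT T l → ∀ A : Finset K,
      (∀ t ∈ A, ∃ s p : K, QPair r l c s p ∧ p ≠ 0 ∧ t = s ^ 2 / p) → A.card ≤ N := by
  classical
  have hn : 5 ≤ r * m - 1 := by
    have : 6 * 1 ≤ r * m := Nat.mul_le_mul hr hm
    omega
  obtain ⟨L, i1, i2, i3, hL⟩ := exists_gap_fermat K hn (badPl r m T)
    (badPl_finite (by omega) (by omega) T hT) _ (sum_inv_inj hr hζ0)
  have hTL : ∀ H ∈ T.image (Polynomial.map (algebraMap K L)), H.natDegree = m := by
    intro H hH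
    obtain ⟨G, hG, rfl⟩ := Finset.mem_image.1 hH
    rw [Polynomial.natDegree_map, hT G hG]
  obtain ⟨C1, hC1⟩ := ht_upper L (r := r) (by omega) hm _ hTL
  obtain ⟨a, C2, F, ha, hC2⟩ := ht_lower L (r := r) (by omega) hm _ hTL
  set W : ℝ := totalWeight L * Real.log 2 with hW
  set C : ℝ := max C2 (W + 3 * C1 + logHeight₁ (2 : L)) with hC
  obtain ⟨N, hN⟩ := UBQ.TauAux.count K L _ hL a C ha F
  refine ⟨N, fun c l hl A hA => ?_⟩
  have hlL := TauAux.inT_map (L := L) hl
  have hinj : Function.Injective (fun t : K => t - 2) := sub_left_injective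
  rw [← Finset.card_image_of_injective A hinj]
  refine hN (logHeight₁ (algebraMap K L c)) _ ?_
  intro τ hτ
  obtain ⟨t, ht, rfl⟩ := Finset.mem_image.1 hτ
  obtain ⟨s, p, hsp, hp, rfl⟩ := hA t ht
  have hQ := hsp.map (L := L)
  have hpL : algebraMap K L p ≠ 0 := by
    intro h0
    exact hp ((algebraMap K L).injective (by rw [h0, map_zero]))
  have e1 : algebraMap K L (s ^ 2 / p - 2) =
      (algebraMap K L s) ^ 2 / (algebraMap K L p) - 2 := by
    rw [map_sub, map_div₀, map_pow, map_ofNat]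
  refine ⟨?_, ?_, ?_⟩
  · intro j
    obtain ⟨a1, a2⟩ := FinalPerAux.root_spec (q := 3) hζ0 (by omega) j
    obtain ⟨b1, b2⟩ := FinalPerAux.root_spec (q := 3) hζ0 (by omega) (0 : Fin 3)
    exact tau_sel (by omega) hm hζ0 hT hl hsp hp a1 a2 b1 b2
  · intro hF
    rw [e1] at hF ⊢
    have h1 := hC2 _ _ _ _ hlL hQ hpL hF
    have h2 : C2 ≤ C := le_max_left _ _
    linarith
  · rw [e1]
    obtain ⟨h1, h2⟩ := hC1 _ _ _ _ hlL hQ
    have h3 := logHeight₁_sub_le ((algebraMap K L s) ^ 2 / (algebraMap K L p)) (2 : L)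
    have h4 : logHeight₁ ((algebraMap K L s) ^ 2 / (algebraMap K L p)) ≤
        2 * logHeight₁ (algebraMap K L s) + logHeight₁ (algebraMap K L p) := by
      have h5 := logHeight₁_mul_le ((algebraMap K L s) ^ 2) (algebraMap K L p)⁻¹
      rw [logHeight₁_inv, logHeight₁_pow, ← div_eq_mul_inv] at h5
      exact_mod_cast h5
    have h6 : W + 3 * C1 + logHeight₁ (2 : L) ≤ C := le_max_right _ _
    linarith

end UBQS
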